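import Mathlib

section

set_option autoImplicit false
open MeasureTheory Filter Topology

namespace Pool.Agent.MP_17fac5_an.H19

/-- The point of the unit circle with angle `θ`. -/
noncomputable abbrev ex (θ : ℝ) : ℂ := Complex.exp ((θ : ℂ) * Complex.I)

/-- Trigonometric polynomials are uniformly dense on a circle. -/
def SWStmt : Prop :=
  ∀ (r : ℝ) (φ : ℂ → ℂ), 0 < r → ContinuousOn φ (Metric.sphere (0 : ℂ) r) → ∀ δ : ℝ, 0 < δ →
    ∃ a b : Polynomial ℂ, ∀ z ∈ Metric.sphere (0 : ℂ) r,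
      ‖φ z - (a.eval z + (starRingEnd ℂ) (b.eval z))‖ ≤ δ

/-- Radial weight: tail mass times circle mean is at most the weighted square norm. -/
def RadStmt : Prop :=
  ∀ (G : ℝ → ℝ) (q : Polynomial ℂ) (ρ : ℝ), Measurable G → 0 ≤ ρ →
    (∫⁻ z in Metric.ball (0 : ℂ) 1 \ Metric.ball (0 : ℂ) ρ, ENNReal.ofReal (G ‖z‖)) *
        ENNReal.ofReal (Real.circleAverage (fun z => ‖q.eval z‖ ^ 2) 0 ρ) ≤
      ∫⁻ z in Metric.ball (0 : ℂ) 1, ENNReal.ofReal (G ‖z‖) * ‖q.eval z‖ₑ ^ (2 : ℕ)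

/-- The logarithm of `w` has integral minus infinity on every interval. -/
def LogBad (w : ℝ → ℝ) : Prop :=
  ∀ a b : ℝ, a < b →
    (∫⁻ θ in Set.Ioo a b,
      (if w θ = 0 then (⊤ : ENNReal) else ENNReal.ofReal (-Real.log (w θ)))) = ⊤

/-- A bounded function below half of log-plus of `1/w` whose primitive is close to `N t`. -/
def RealStmt : Prop :=
  ∀ w : ℝ → ℝ, Measurable w → (∀ θ, 0 ≤ w θ) → LogBad w →
    ∀ N η : ℝ, 0 < N → 0 < η → ∃ (φ : ℝ → ℝ) (M : ℝ), Measurable φ ∧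
      (∀ θ, 0 ≤ φ θ ∧ φ θ ≤ M) ∧ (∀ θ, Real.exp (2 * φ θ) * w θ ≤ max (w θ) 1) ∧
      ∀ t ∈ Set.Icc (0 : ℝ) (2 * Real.pi), |(∫ θ in (0 : ℝ)..t, φ θ) - N * t| ≤ η

/-- A bounded measurable function is close in mean to the real part of a polynomial. -/
def AppStmt : Prop :=
  ∀ (m : Measure ℝ) [IsFiniteMeasure m] (φ : ℝ → ℝ) (M δ : ℝ),
    (∀ᵐ θ ∂m, θ ∈ Set.Ioc (0 : ℝ) (2 * Real.pi)) → Measurable φ →
    (∀ θ, 0 ≤ φ θ ∧ φ θ ≤ M) → 0 < δ →
    ∃ F : Polynomial ℂ, (∀ θ : ℝ, (F.eval (ex θ)).re ≤ M + 1) ∧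
      (∫⁻ θ, ENNReal.ofReal |(F.eval (ex θ)).re - φ θ| ∂m) ≤ ENNReal.ofReal δ

/-- Interior bound from a small primitive of the boundary real part. -/
def DerStmt : Prop :=
  ∀ (F : Polynomial ℂ) (N η : ℝ), 0 < η →
    (∀ t ∈ Set.Icc (0 : ℝ) (2 * Real.pi),
      |(∫ θ in (0 : ℝ)..t, (F.eval (ex θ)).re) - N * t| ≤ η) →
    |(F.eval 0).re - N| ≤ η ∧
      ∀ z : ℂ, ‖z‖ < 1 → ‖F.eval z - F.eval 0‖ ≤ 40 * η / (1 - ‖z‖)

/-- Small exponential moments of a measure on the disc. -/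
def Moment (ν : Measure ℂ) : Prop :=
  ∀ ε : ℝ, 0 < ε → ∃ η : ℝ, 0 < η ∧
    (∫⁻ z, ENNReal.ofReal ((Real.exp (η / (1 - ‖z‖)) - 1) ^ 2) ∂ν) < ENNReal.ofReal ε

/-- Exponential decay of the tail gives small exponential moments. -/
def TailStmt : Prop :=
  ∀ (ν : Measure ℂ) [IsFiniteMeasure ν] (c : ℝ), 0 < c → (∀ᵐ z ∂ν, ‖z‖ < 1) →
    (∀ᶠ r in 𝓝[<] (1 : ℝ), ν {z | r ≤ ‖z‖} ≤ ENNReal.ofReal (Real.exp (-c / (1 - r)))) →
    Moment ν

/-- The pair (one on the disc, zero on the circle) is a limit of polynomials. -/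
def OneStmt : Prop :=
  ∀ (ν : Measure ℂ) (w : ℝ → ℝ), (∀ᵐ z ∂ν, ‖z‖ < 1) → Moment ν → Measurable w →
    (∀ θ, 0 ≤ w θ) → (∫⁻ θ in Set.Ioc (0 : ℝ) (2 * Real.pi), ENNReal.ofReal (w θ)) < ⊤ →
    LogBad w → ∀ ε : ℝ, 0 < ε → ∃ h : Polynomial ℂ, h.eval 0 = 1 ∧
      (∫⁻ θ in Set.Ioc (0 : ℝ) (2 * Real.pi),
        ENNReal.ofReal (w θ) * ‖h.eval (ex θ)‖ₑ ^ (2 : ℕ)) < ENNReal.ofReal ε ∧
      (∫⁻ z, ‖h.eval z - 1‖ₑ ^ (2 : ℕ) ∂ν) < ENNReal.ofReal ε

/-- From that pair to all pairs (zero on the disc, `g` on the circle). -/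
def FinStmt : Prop :=
  ∀ (μ ν : Measure ℂ) [IsFiniteMeasure μ], (∀ᵐ z ∂μ, ‖z‖ = 1) → (∀ᵐ z ∂ν, ‖z‖ < 1) →
    (∀ ε : ℝ, 0 < ε → ∃ h : Polynomial ℂ, h.eval 0 = 1 ∧
      (∫⁻ z, ‖h.eval z‖ₑ ^ (2 : ℕ) ∂μ) < ENNReal.ofReal ε ∧
      (∫⁻ z, ‖h.eval z - 1‖ₑ ^ (2 : ℕ) ∂ν) < ENNReal.ofReal ε) →
    ∀ g : ℂ → ℂ, Measurable g → (∫⁻ z, ‖g z‖ₑ ^ (2 : ℕ) ∂μ) < ⊤ → ∀ ε : ℝ, 0 < ε →
      ∃ p : Polynomial ℂ, (∫⁻ z, ‖p.eval z‖ₑ ^ (2 : ℕ) ∂ν) < ENNReal.ofReal ε ∧
        (∫⁻ z, ‖p.eval z - g z‖ₑ ^ (2 : ℕ) ∂μ) < ENNReal.ofReal ε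

end Pool.Agent.MP_17fac5_an.H19

end

section

set_option autoImplicit false
open MeasureTheory Filter Topology

namespace Pool.Agent.MP_17fac5_an.H19

/-- The Herglotz kernel in the variable `a z ^ n`. -/
noncomputable def Hf (a : ℝ) (n : ℕ) (z : ℂ) : ℂ := (1 + a * z ^ n) / (1 - a * z ^ n)

theorem Hf_norm {a r : ℝ} {n : ℕ} (ha : 0 ≤ a) (h : a * r ^ n < 1) {z : ℂ} (hz : ‖z‖ ≤ r) :
    ‖(a : ℂ) * z ^ n‖ < 1 := by
  rw [norm_mul, norm_pow, Complex.norm_real, Real.norm_of_nonneg ha]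
  exact lt_of_le_of_lt (by gcongr) h

theorem Hf_den {a r : ℝ} {n : ℕ} (ha : 0 ≤ a) (h : a * r ^ n < 1) {z : ℂ} (hz : ‖z‖ ≤ r) :
    1 - (a : ℂ) * z ^ n ≠ 0 := by
  intro h0
  have h1 := Hf_norm ha h hz
  rw [← sub_eq_zero.1 h0] at h1
  simp at h1

theorem Hf_diff {a r : ℝ} {n : ℕ} (ha : 0 ≤ a) (h : a * r ^ n < 1) {z : ℂ} (hz : ‖z‖ ≤ r) :
    DifferentiableAt ℂ (Hf a n) z := by
  unfold Hf
  exact DifferentiableAt.div (by fun_prop) (by fun_prop) (Hf_den ha h hz)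

theorem re_herg (w : ℂ) : ((1 + w) / (1 - w)).re =
    (1 - Complex.normSq w) / Complex.normSq (1 - w) := by
  rw [Complex.div_re, ← add_div]
  congr 1
  simp [Complex.normSq_apply]; ring

theorem Hf_re_nonneg {a r : ℝ} {n : ℕ} (ha : 0 ≤ a) (h : a * r ^ n < 1) {z : ℂ}
    (hz : ‖z‖ ≤ r) : 0 ≤ (Hf a n z).re := by
  unfold Hf
  rw [re_herg]
  have h1 := Hf_norm ha h hz
  refine div_nonneg ?_ (Complex.normSq_nonneg _)
  rw [Complex.normSq_eq_norm_sq]
  nlinarith [norm_nonneg ((a : ℂ) * z ^ n)]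

theorem dcc_of_at {f : ℂ → ℂ} {r : ℝ} (h : ∀ z : ℂ, ‖z‖ ≤ r → DifferentiableAt ℂ f z) :
    DiffContOnCl ℂ f (Metric.ball 0 r) := by
  apply DifferentiableOn.diffContOnCl
  intro z hz
  have := Metric.closure_ball_subset_closedBall hz
  exact (h z (by simpa using this)).differentiableWithinAt

theorem con_of_at {f : ℂ → ℂ} {r : ℝ} (h : ∀ z : ℂ, ‖z‖ ≤ r → DifferentiableAt ℂ f z) :
    ContinuousOn f (Metric.sphere 0 r) := fun z hz =>
  (h z (by simpa using (show ‖z‖ = r by simpa using hz).le)).continuousAt.continuousWithinAt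

theorem avg_re {f : ℂ → ℂ} {r : ℝ} (hr : 0 ≤ r)
    (h : ∀ z : ℂ, ‖z‖ ≤ r → DifferentiableAt ℂ f z) :
    Real.circleAverage (fun z => (f z).re) 0 r = (f 0).re := by
  have h1 : Real.circleAverage f 0 r = f 0 := by
    apply DiffContOnCl.circleAverage
    rw [abs_of_nonneg hr]; exact dcc_of_at h
  have h2 := Complex.reCLM.circleAverage_comp_comm ((con_of_at h).circleIntegrable hr)
  rw [h1] at h2
  exact h2

theorem Hf_avg {a r : ℝ} {n : ℕ} (hn : n ≠ 0) (hr : 0 ≤ r) (ha : 0 ≤ a) (h : a * r ^ n < 1) :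
    Real.circleAverage (fun z => (Hf a n z).re) 0 r = 1 := by
  rw [avg_re hr (fun z hz => Hf_diff ha h hz)]
  simp [Hf, hn]

theorem maxmod {f : ℂ → ℂ} {r C : ℝ} (hr : 0 < r)
    (h : ∀ z : ℂ, ‖z‖ ≤ r → DifferentiableAt ℂ f z) (hC : ∀ z : ℂ, ‖z‖ = r → ‖f z‖ ≤ C)
    {z : ℂ} (hz : ‖z‖ ≤ r) : ‖f z‖ ≤ C := by
  apply Complex.norm_le_of_forall_mem_frontier_norm_le Metric.isBounded_ball (dcc_of_at h)
  · intro w hw
    rw [frontier_ball _ hr.ne'] at hw
    exact hC w (by simpa using hw)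
  · rw [closure_ball _ hr.ne']; simpa using hz

/-- Harmonic majorant on a disc, up to a small error. -/
theorem tool (hsw : SWStmt) {r m δ : ℝ} (hr : 0 < r) (hδ : 0 < δ) {f : ℂ → ℂ} {e : ℂ → ℝ}
    (hf : ∀ z : ℂ, ‖z‖ ≤ r → DifferentiableAt ℂ f z) (he : ContinuousOn e (Metric.sphere 0 r))
    (hfe : ∀ z : ℂ, ‖z‖ = r → ‖f z‖ ≤ Real.exp (e z)) (hm : ∀ z : ℂ, ‖z‖ = r → m ≤ e z) :
    ∃ F : ℂ → ℂ, Differentiable ℂ F ∧
      (∀ z : ℂ, ‖z‖ ≤ r → ‖f z‖ ≤ Real.exp (F z).re ∧ m ≤ (F z).re) ∧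
      (F 0).re ≤ Real.circleAverage e 0 r + δ := by
  obtain ⟨a, b, hab⟩ := hsw r (fun z => (e z : ℂ)) hr
    (Complex.continuous_ofReal.comp_continuousOn he) (δ / 2) (by positivity)
  set F : ℂ → ℂ := fun z => a.eval z + b.eval z + (δ / 2 : ℝ) with hF
  have hFd : Differentiable ℂ F :=
    ((a.differentiable).add (b.differentiable)).add (differentiable_const _)
  have hb : ∀ z : ℂ, ‖z‖ = r → e z ≤ (F z).re ∧ (F z).re ≤ e z + δ := by
    intro z hz
    have h1 := (Complex.abs_re_le_norm _).trans (hab z (by simpa using hz))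
    simp only [Complex.sub_re, Complex.add_re, Complex.ofReal_re, Complex.conj_re] at h1
    simp only [hF, Complex.add_re, Complex.ofReal_re]
    have := abs_le.1 h1
    constructor <;> linarith [this.1, this.2]
  refine ⟨F, hFd, fun z hz => ⟨?_, ?_⟩, ?_⟩
  · have h1 : ‖f z * Complex.exp (-F z)‖ ≤ 1 := by
      refine maxmod (f := fun z => f z * Complex.exp (-F z)) hr
        (fun w hw => (hf w hw).mul (hFd w).neg.cexp) (fun w hw => ?_) hz
      rw [norm_mul, Complex.norm_exp, Complex.neg_re, Real.exp_neg, ← div_eq_mul_inv,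
        div_le_one (Real.exp_pos _)]
      exact (hfe w hw).trans (Real.exp_le_exp.2 (hb w hw).1)
    rwa [norm_mul, Complex.norm_exp, Complex.neg_re, Real.exp_neg, ← div_eq_mul_inv,
      div_le_one (Real.exp_pos _)] at h1
  · have h1 : ‖Complex.exp (-F z)‖ ≤ Real.exp (-m) := by
      refine maxmod (f := fun z => Complex.exp (-F z)) hr
        (fun w _ => (hFd w).neg.cexp) (fun w hw => ?_) hz
      rw [Complex.norm_exp, Complex.neg_re]
      exact Real.exp_le_exp.2 (by linarith [hm w hw, (hb w hw).1])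
    rw [Complex.norm_exp, Complex.neg_re, Real.exp_le_exp] at h1
    linarith
  · rw [← avg_re hr.le (fun z _ => hFd z)]
    have hei : CircleIntegrable e 0 r := he.circleIntegrable hr.le
    have h2 : Real.circleAverage (fun z => e z + δ) 0 r = Real.circleAverage e 0 r + δ := by
      rw [Real.circleAverage_fun_add hei (circleIntegrable_const _ _ _), Real.circleAverage_const]
    rw [← h2]
    refine Real.circleAverage_mono ?_ (hei.add (circleIntegrable_const _ _ _)) (fun z hz => ?_)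
    · exact (Complex.continuous_re.comp hFd.continuous).continuousOn.circleIntegrable hr.le
    · exact (hb z (by simpa [abs_of_pos hr] using hz)).2

theorem normSq_one_sub (s : ℝ) {u : ℂ} (hu : ‖u‖ = 1) :
    Complex.normSq (1 - s * u) = (1 - s) ^ 2 + s * Complex.normSq (1 - u) ∧
      Complex.normSq (s * u) = s ^ 2 := by
  have h1 : u.re ^ 2 + u.im ^ 2 = 1 := by
    have := Complex.normSq_eq_norm_sq u
    rw [hu, Complex.normSq_apply] at this; nlinarith
  constructor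
  · simp [Complex.normSq_apply]; linear_combination (s ^ 2 - s) * h1
  · simp [Complex.normSq_apply]; linear_combination (s ^ 2) * h1

/-- The truncated Poisson kernel is below a small multiple of a wider Poisson kernel. -/
theorem compare {s y Y L k : ℝ} {u : ℂ} (hu : ‖u‖ = 1) (hy : 0 < y) (hk : 0 < k)
    (hs1 : s < 1) (hs : 1 - 2 * y ≤ s) (hs2 : 1 / 2 ≤ s) (hY : k * Y = 16 * y) (hY1 : Y ≤ 1 / 2)
    (hL : 2 * Y * L ≤ k) :
    min ((1 + s * u) / (1 - s * u)).re L ≤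
      k * ((1 + ((1 - Y : ℝ) : ℂ) * u) / (1 - ((1 - Y : ℝ) : ℂ) * u)).re := by
  have hY0 : 0 < Y := by by_contra h; nlinarith
  rw [re_herg, re_herg, (normSq_one_sub s hu).1, (normSq_one_sub s hu).2,
    (normSq_one_sub (1 - Y) hu).1, (normSq_one_sub (1 - Y) hu).2]
  have hd := Complex.normSq_nonneg (1 - u)
  set d := Complex.normSq (1 - u)
  have hP : Y / (Y ^ 2 + d) ≤ (1 - (1 - Y) ^ 2) / ((1 - (1 - Y)) ^ 2 + (1 - Y) * d) := by
    apply div_le_div₀ (by nlinarith) (by nlinarith) (by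
      have : 0 ≤ (1 - Y) * d := mul_nonneg (by linarith) hd
      nlinarith) (by nlinarith)
  refine le_trans ?_ (mul_le_mul_of_nonneg_left hP hk.le)
  rcases le_total d (Y ^ 2) with h | h
  · refine (min_le_right _ _).trans ?_
    rw [← mul_div_assoc, le_div_iff₀ (by positivity)]
    rcases le_total L 0 with h0 | h0
    · nlinarith [mul_nonneg (neg_nonneg.2 h0) (show 0 ≤ Y ^ 2 + d by positivity), mul_pos hk hY0]
    · nlinarith [mul_le_mul_of_nonneg_left h h0, mul_le_mul_of_nonneg_left hL hY0.le]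
  · refine (min_le_left _ _).trans ?_
    have hd0 : 0 < d := lt_of_lt_of_le (by positivity) h
    rw [← mul_div_assoc, hY]
    calc (1 - s ^ 2) / ((1 - s) ^ 2 + s * d) ≤ (4 * y) / (d / 2) := by
          apply div_le_div₀ (by positivity) (by nlinarith) (by positivity)
          nlinarith [sq_nonneg (1 - s)]
      _ = 16 * y / (2 * d) := by field_simp; ring
      _ ≤ 16 * y / (Y ^ 2 + d) := by
          apply div_le_div_of_nonneg_left (by positivity) (by positivity); linarith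

theorem norm_ex (θ : ℝ) : ‖ex θ‖ = 1 := Complex.norm_exp_ofReal_mul_I θ

theorem cont_ex : Continuous ex := by unfold ex; fun_prop

theorem avg_one (f : ℂ → ℝ) : Real.circleAverage f 0 1 =
    (2 * Real.pi)⁻¹ * ∫ θ in (0 : ℝ)..2 * Real.pi, f (ex θ) := by
  simp [Real.circleAverage_def, circleMap, ex]

theorem Hf_cont {a : ℝ} {n : ℕ} (ha : 0 ≤ a) (ha1 : a < 1) :
    Continuous fun θ : ℝ => (Hf a n (ex θ)).re := by
  refine Complex.continuous_re.comp (continuous_iff_continuousAt.2 fun θ => ?_)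
  exact ContinuousAt.comp (g := Hf a n)
    (Hf_diff (r := 1) ha (by simpa using ha1) (norm_ex θ).le).continuousAt cont_ex.continuousAt

/-- The kernels are equidistributed on the circle. -/
theorem Hf_arc {a : ℝ} {n : ℕ} (hn : n ≠ 0) (ha : 0 ≤ a) (ha1 : a < 1) {α β : ℝ} (h : α ≤ β) :
    β - α - 2 * Real.pi / n ≤ ∫ θ in α..β, (Hf a n (ex θ)).re := by
  set f : ℝ → ℝ := fun θ => (Hf a n (ex θ)).re with hf
  have hn0 : (0 : ℝ) < n := by positivity
  set T : ℝ := 2 * Real.pi / n with hT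
  have hT0 : 0 < T := by positivity
  have hc : Continuous f := Hf_cont ha ha1
  have hi : ∀ s t, IntervalIntegrable f volume s t := fun s t => hc.intervalIntegrable s t
  have hp : Function.Periodic f T := by
    intro θ
    have : ex (θ + T) ^ n = ex θ ^ n := by
      rw [ex, ex, ← Complex.exp_nat_mul, ← Complex.exp_nat_mul, hT]
      have hn' : (n : ℂ) ≠ 0 := by exact_mod_cast hn
      rw [← Complex.exp_periodic ((n : ℂ) * (θ * Complex.I))]
      congr 1; push_cast; field_simp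
    simp only [hf, Hf, this]
  have h1 : ∫ θ in (0 : ℝ)..2 * Real.pi, f θ = 2 * Real.pi := by
    have h2 := Hf_avg (a := a) (r := 1) hn zero_le_one ha (by simpa using ha1)
    rw [avg_one] at h2
    have := Real.pi_pos
    field_simp at h2
    simpa [hf, mul_comm] using h2
  have h2 : ∫ θ in α..α + T, f θ = T := by
    have h3 := hp.intervalIntegral_add_zsmul_eq (n : ℤ) 0 hi
    have h4 : (0 : ℝ) + (n : ℤ) • T = 2 * Real.pi := by simp [hT]; field_simp
    rw [h4, h1] at h3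
    rw [hp.intervalIntegral_add_eq α 0]
    rw [zsmul_eq_mul, Int.cast_natCast] at h3
    have h5 : T * n = 2 * Real.pi := by rw [hT]; field_simp
    apply mul_right_cancel₀ hn0.ne'
    rw [h5, mul_comm]; exact h3.symm
  set k : ℤ := ⌊(β - α) / T⌋ with hk
  have h3 := hp.intervalIntegral_add_zsmul_eq k α hi
  have hk1 : (k : ℝ) * T ≤ β - α := by
    have := Int.floor_le ((β - α) / T); rwa [le_div_iff₀ hT0] at this
  have hk2 : β - α < (k + 1) * T := by
    have := Int.lt_floor_add_one ((β - α) / T); rwa [div_lt_iff₀ hT0] at this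
  rw [h2, zsmul_eq_mul] at h3
  rw [← intervalIntegral.integral_add_adjacent_intervals (hi α (α + k * T)) (hi _ β), h3]
  have h5 : 0 ≤ ∫ θ in (α + k * T)..β, f θ :=
    intervalIntegral.integral_nonneg (by linarith) fun θ _ =>
      Hf_re_nonneg (r := 1) ha (by simpa using ha1) (norm_ex θ).le
  linarith

end Pool.Agent.MP_17fac5_an.H19

end

section

set_option autoImplicit false
open MeasureTheory Filter Topology

namespace Pool.Agent.MP_17fac5_an.H19

/-- Sum of the first `J` kernels. -/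
noncomputable def Sf (a : ℕ → ℝ) (J : ℕ) (z : ℂ) : ℂ :=
  ∑ i ∈ Finset.range J, Hf (a i) (i + 1) z

theorem Sf_diff {a : ℕ → ℝ} (ha : ∀ i, 0 ≤ a i ∧ a i < 1) (J : ℕ) {z : ℂ} (hz : ‖z‖ ≤ 1) :
    DifferentiableAt ℂ (Sf a J) z := by
  unfold Sf
  exact DifferentiableAt.fun_sum fun i _ =>
    Hf_diff (r := 1) (ha i).1 (by simpa using (ha i).2) hz

theorem Sf_succ (a : ℕ → ℝ) (J : ℕ) (z : ℂ) :
    (Sf a (J + 1) z).re = (Sf a J z).re + (Hf (a J) (J + 1) z).re := by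
  simp [Sf, Finset.sum_range_succ]

theorem Sf_mono {a : ℕ → ℝ} (ha : ∀ i, 0 ≤ a i ∧ a i < 1) {z : ℂ} (hz : ‖z‖ ≤ 1) :
    Monotone fun J => (Sf a J z).re :=
  monotone_nat_of_le_succ fun J => by
    rw [Sf_succ]
    linarith [Hf_re_nonneg (r := 1) (n := J + 1) (ha J).1 (by simpa using (ha J).2) hz]

theorem Sf_nonneg {a : ℕ → ℝ} (ha : ∀ i, 0 ≤ a i ∧ a i < 1) (J : ℕ) {z : ℂ} (hz : ‖z‖ ≤ 1) :
    0 ≤ (Sf a J z).re := by
  simpa [Sf] using Sf_mono ha hz (Nat.zero_le J)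

theorem le_exp_sq {t : ℝ} (ht : 0 < t) (u : ℝ) :
    u ≤ Real.exp (-Real.log t / 2 + t / 2 * u ^ 2) := by
  apply le_trans (le_abs_self u)
  apply abs_le_of_sq_le_sq _ (Real.exp_pos _).le
  rw [← Real.exp_nat_mul, show ((2 : ℕ) : ℝ) * (-Real.log t / 2 + t / 2 * u ^ 2) =
    t * u ^ 2 - Real.log t by push_cast; ring, Real.exp_sub, Real.exp_log ht, le_div_iff₀ ht]
  linarith [Real.add_one_le_exp (t * u ^ 2)]

theorem avg_mul (k : ℝ) (f : ℂ → ℝ) (r : ℝ) :
    Real.circleAverage (fun z => k * f z) 0 r = k * Real.circleAverage f 0 r :=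
  Real.circleAverage_fun_smul (a := k) (f := f)

/-- The invariant of the descent through the circles. -/
def Inv (q : Polynomial ℂ) (a : ℕ → ℝ) (m : ℝ) (J : ℕ) (R B : ℝ) : Prop :=
  ∃ Φ : ℂ → ℂ, Differentiable ℂ Φ ∧
    (∀ z : ℂ, ‖z‖ ≤ R →
      ‖q.eval z‖ ≤ Real.exp ((Φ z).re + (Sf a J z).re) ∧ m ≤ (Φ z).re) ∧ (Φ 0).re ≤ B

theorem outer (hsw : SWStmt) (q : Polynomial ℂ) {a : ℕ → ℝ} (ha : ∀ i, 0 ≤ a i ∧ a i < 1)
    (m : ℝ) (J : ℕ) : Inv q a m J 1 (m + Real.exp (-2 * m) / 2 *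
      Real.circleAverage (fun z => ‖q.eval z * Complex.exp (-Sf a J z)‖ ^ 2) 0 1 + 1) := by
  have hd : ∀ z : ℂ, ‖z‖ ≤ 1 →
      DifferentiableAt ℂ (fun z => q.eval z * Complex.exp (-Sf a J z)) z := fun z hz =>
    (q.differentiable z).mul (Sf_diff ha J hz).neg.cexp
  have hc : ContinuousOn (fun z => ‖q.eval z * Complex.exp (-Sf a J z)‖ ^ 2)
      (Metric.sphere 0 1) := (con_of_at hd).norm.pow 2
  obtain ⟨F, hF, h1, h2⟩ := tool hsw (r := 1) (m := m) (δ := 1) one_pos one_pos hd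
    (e := fun z => m + Real.exp (-2 * m) / 2 * ‖q.eval z * Complex.exp (-Sf a J z)‖ ^ 2)
    (continuousOn_const.add (continuousOn_const.mul hc))
    (fun z _ => by
      have := le_exp_sq (Real.exp_pos (-2 * m)) ‖q.eval z * Complex.exp (-Sf a J z)‖
      rwa [Real.log_exp, show -(-2 * m) / 2 = m by ring] at this)
    (fun z _ => le_add_of_nonneg_right (by positivity))
  refine ⟨F, hF, fun z hz => ⟨?_, (h1 z hz).2⟩, h2.trans (le_of_eq ?_)⟩
  · have h3 := (h1 z hz).1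
    rwa [norm_mul, Complex.norm_exp, Complex.neg_re, Real.exp_neg, ← div_eq_mul_inv,
      div_le_iff₀ (Real.exp_pos _), ← Real.exp_add] at h3
  · have hc' : ContinuousOn (fun z => Real.exp (-2 * m) / 2 *
        ‖q.eval z * Complex.exp (-Sf a J z)‖ ^ 2) (Metric.sphere 0 1) := continuousOn_const.mul hc
    rw [Real.circleAverage_fun_add (circleIntegrable_const _ _ _)
      (hc'.circleIntegrable zero_le_one), Real.circleAverage_const, avg_mul]

/-- The numerical conditions at one circle. -/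
def Good (m a ρ t k : ℝ) (n : ℕ) : Prop :=
  0 < ρ ∧ ρ < 1 ∧ 0 < t ∧ ∃ y Y : ℝ, 0 < y ∧ 1 - 2 * y ≤ a * ρ ^ n ∧ 1 / 2 ≤ a * ρ ^ n ∧
    k * Y = 16 * y ∧ Y ≤ 1 / 2 ∧ 2 * Y * (-m - Real.log t / 2) ≤ k

theorem step (hsw : SWStmt) {q : Polynomial ℂ} {a : ℕ → ℝ} (ha : ∀ i, 0 ≤ a i ∧ a i < 1)
    {m ρ t k R B : ℝ} {J : ℕ} (hk : 0 < k) (hg : Good m (a J) ρ t k (J + 1)) (hR : ρ ≤ R)
    (h : Inv q a m (J + 1) R B) :
    Inv q a m J ρ (B + 2 * k + t / 2 * Real.circleAverage (fun z => ‖q.eval z‖ ^ 2) 0 ρ) := by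
  obtain ⟨hρ, hρ1, ht, y, Y, hy, hs, hs2, hY, hY1, hL⟩ := hg
  obtain ⟨Φ, hΦ, h1, h2⟩ := h
  have hY0 : 0 < Y := by by_contra h; nlinarith
  have hρn : 0 < ρ ^ (J + 1) := by positivity
  have hs1 : a J * ρ ^ (J + 1) < 1 :=
    lt_of_le_of_lt (mul_le_of_le_one_right (ha J).1 (pow_le_one₀ hρ.le hρ1.le)) (ha J).2
  set b : ℝ := (1 - Y) / ρ ^ (J + 1) with hb
  have hb0 : 0 ≤ b := div_nonneg (by linarith) hρn.le
  have hb1 : b * ρ ^ (J + 1) < 1 := by rw [hb, div_mul_cancel₀ _ hρn.ne']; linarith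
  have hd : ∀ z : ℂ, ‖z‖ ≤ ρ →
      DifferentiableAt ℂ (fun z => q.eval z * Complex.exp (-(Φ z + Sf a J z))) z := fun z hz =>
    (q.differentiable z).mul ((hΦ z).add (Sf_diff ha J (hz.trans hρ1.le))).neg.cexp
  have hn : ∀ z : ℂ, ‖q.eval z * Complex.exp (-(Φ z + Sf a J z))‖ =
      ‖q.eval z‖ / Real.exp ((Φ z).re + (Sf a J z).re) := fun z => by
    rw [norm_mul, Complex.norm_exp, Complex.neg_re, Real.exp_neg, ← div_eq_mul_inv,
      Complex.add_re]
  have hc1 : ContinuousOn (fun z => k * (Hf b (J + 1) z).re) (Metric.sphere 0 ρ) :=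
    continuousOn_const.mul (Complex.continuous_re.comp_continuousOn
      (con_of_at fun z hz => Hf_diff hb0 hb1 hz))
  have hc2 : ContinuousOn (fun z => t / 2 * ‖q.eval z‖ ^ 2) (Metric.sphere 0 ρ) :=
    continuousOn_const.mul (q.continuous.norm.pow 2).continuousOn
  obtain ⟨F, hF, h3, h4⟩ := tool hsw (r := ρ) (m := 0) (δ := k) hρ hk hd
    (e := fun z => k * (Hf b (J + 1) z).re + t / 2 * ‖q.eval z‖ ^ 2) (hc1.add hc2)
    (fun z hz => by
      have hu : ‖(z / ρ) ^ (J + 1)‖ = 1 := by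
        rw [norm_pow, norm_div, hz, Complex.norm_real, Real.norm_of_nonneg hρ.le,
          div_self hρ.ne', one_pow]
      have hρc : (ρ : ℂ) ≠ 0 := by exact_mod_cast hρ.ne'
      have hc := compare hu hy hk hs1 hs hs2 hY hY1 hL
      have e1 : ((a J * ρ ^ (J + 1) : ℝ) : ℂ) * (z / ρ) ^ (J + 1) = a J * z ^ (J + 1) := by
        push_cast; rw [div_pow]; field_simp
      have e2 : ((1 - Y : ℝ) : ℂ) * (z / ρ) ^ (J + 1) = b * z ^ (J + 1) := by
        rw [hb]; push_cast; rw [div_pow]; field_simp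
      rw [e1, e2] at hc
      have h5 := h1 z (hz.le.trans hR)
      have h6 := Sf_nonneg ha J (hz.le.trans hρ1.le)
      have h7 : 0 ≤ t / 2 * ‖q.eval z‖ ^ 2 := by positivity
      rw [hn, div_le_iff₀ (Real.exp_pos _), ← Real.exp_add]
      rcases min_le_iff.1 hc with h8 | h8
      · refine h5.1.trans (Real.exp_le_exp.2 ?_)
        rw [Sf_succ]; unfold Hf; linarith
      · refine (le_exp_sq ht _).trans (Real.exp_le_exp.2 ?_)
        unfold Hf; linarith [h5.2])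
    (fun z hz => add_nonneg (mul_nonneg hk.le (Hf_re_nonneg hb0 hb1 hz.le)) (by positivity))
  refine ⟨fun z => Φ z + F z, hΦ.add hF, fun z hz => ⟨?_, ?_⟩, ?_⟩
  · have h5 := (h3 z hz).1
    rw [hn, div_le_iff₀ (Real.exp_pos _), ← Real.exp_add] at h5
    refine h5.trans (le_of_eq ?_)
    simp only [Complex.add_re]; congr 1; ring
  · simp only [Complex.add_re]; linarith [(h3 z hz).2, (h1 z (hz.trans hR)).2]
  · rw [Real.circleAverage_fun_add (hc1.circleIntegrable hρ.le) (hc2.circleIntegrable hρ.le)]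
      at h4
    have e1 : Real.circleAverage (fun z => k * (Hf b (J + 1) z).re) 0 ρ = k := by
      have := Real.circleAverage_fun_smul (a := k) (f := fun z => (Hf b (J + 1) z).re)
        (c := 0) (R := ρ)
      rw [Hf_avg (Nat.succ_ne_zero J) hρ.le hb0 hb1] at this
      simpa using this
    have e2 : Real.circleAverage (fun z => t / 2 * ‖q.eval z‖ ^ 2) 0 ρ =
        t / 2 * Real.circleAverage (fun z => ‖q.eval z‖ ^ 2) 0 ρ := avg_mul _ _ _
    simp only [Complex.add_re]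
    linarith

theorem descent (hsw : SWStmt) {q : Polynomial ℂ} {a r t : ℕ → ℝ}
    (ha : ∀ i, 0 ≤ a i ∧ a i < 1) {m N : ℝ} (hr : Monotone r)
    (hg : ∀ j, Good m (a j) (r j) (t j) ((1 / 2) ^ (j + 1)) (j + 1))
    (hN : ∀ j, t j * Real.circleAverage (fun z => ‖q.eval z‖ ^ 2) 0 (r j) ≤
      (1 / 2) ^ (j + 1) * N) (J : ℕ) : ∀ R B : ℝ, 0 ≤ R → (∀ i < J, r i ≤ R) →
      Inv q a m J R B → ‖q.eval 0‖ ≤ Real.exp (B + (2 + N / 2) * (1 - (1 / 2) ^ J)) := by
  induction J with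
  | zero =>
    rintro R B hR - ⟨Φ, -, h1, h2⟩
    refine (h1 0 (by simpa using hR)).1.trans (Real.exp_le_exp.2 ?_)
    simpa [Sf] using h2
  | succ J ih =>
    intro R B _ hR h
    have h1 := step hsw ha (by positivity) (hg J) (hR J (Nat.lt_succ_self J)) h
    refine (ih _ _ (hg J).1.le (fun i hi => hr hi.le) h1).trans (Real.exp_le_exp.2 ?_)
    have h2 := hN J
    rw [pow_succ] at h2 ⊢
    nlinarith

theorem pick {τ : ℝ → ℝ} {m k R : ℝ} {n : ℕ} (hn : n ≠ 0) (hk : 0 < k) (hk1 : k ≤ 1)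
    (hR : R < 1)
    (h : ∀ c : ℝ, 0 < c → ∃ᶠ r in 𝓝[<] (1 : ℝ), Real.exp (-c / (1 - r)) < τ r) :
    ∃ ρ a : ℝ, R ≤ ρ ∧ (0 ≤ a ∧ a < 1) ∧ Good m a ρ (k * τ ρ) k n := by
  have hn0 : (0 : ℝ) < n := by positivity
  have hT : Tendsto (fun r : ℝ => 16 * (n * (1 - r)) / k) (𝓝[<] 1) (𝓝 0) := by
    have : Continuous fun r : ℝ => 16 * (n * (1 - r)) / k := by fun_prop
    simpa using (this.tendsto 1).mono_left nhdsWithin_le_nhds
  have hT2 := (hT.const_mul 2).mul_const (-m - Real.log k / 2)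
  rw [mul_zero, zero_mul] at hT2
  obtain ⟨ρ, ⟨⟨h1, h2⟩, h3⟩, h4, h5⟩ := ((((h (k ^ 2 / (32 * n)) (by positivity)).and_eventually
    (hT.eventually_lt_const (show (0 : ℝ) < 1 / 2 by norm_num))).and_eventually
    (hT2.eventually_lt_const (half_pos hk))).and_eventually
    (Ioo_mem_nhdsLT (max_lt hR one_pos))).exists
  have hx : 0 < 1 - ρ := by linarith
  have hρ : 0 < ρ := (le_max_right _ _).trans_lt h4
  have hτ : 0 < τ ρ := (Real.exp_pos _).trans h1
  set y : ℝ := n * (1 - ρ) with hy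
  have hy0 : 0 < y := by positivity
  have hy1 : y ≤ 1 / 32 := by
    rw [div_lt_iff₀ hk] at h2; linarith
  have hb : 1 - y ≤ ρ ^ n := by
    have := one_add_mul_le_pow (a := ρ - 1) (by linarith) n
    rw [add_sub_cancel] at this; rw [hy]; linarith
  have hs : 1 - 2 * y ≤ (1 - y) * ρ ^ n := by nlinarith
  refine ⟨ρ, 1 - y, ((le_max_left _ _).trans_lt h4).le, ⟨by linarith, by linarith⟩, hρ, h5,
    by positivity, y, 16 * y / k, hy0, hs, by linarith, by field_simp, h2.le, ?_⟩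
  have h6 : -(k ^ 2 / (32 * n)) / (1 - ρ) < Real.log (τ ρ) := (Real.lt_log_iff_exp_lt hτ).2 h1
  rw [Real.log_mul hk.ne' hτ.ne']
  have h7 : 16 * y / k * (-(k ^ 2 / (32 * n)) / (1 - ρ)) = -(k / 2) := by
    rw [hy]; field_simp; ring
  have h8 := mul_le_mul_of_nonneg_left h6.le (show 0 ≤ 16 * y / k by positivity)
  nlinarith

theorem pick_seq {τ : ℝ → ℝ} (m : ℝ)
    (h : ∀ c : ℝ, 0 < c → ∃ᶠ r in 𝓝[<] (1 : ℝ), Real.exp (-c / (1 - r)) < τ r) :
    ∃ r a : ℕ → ℝ, Monotone r ∧ (∀ i, 0 ≤ a i ∧ a i < 1) ∧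
      ∀ j, Good m (a j) (r j) ((1 / 2) ^ (j + 1) * τ (r j)) ((1 / 2) ^ (j + 1)) (j + 1) := by
  have h1 : ∀ (j : ℕ) (R : {x : ℝ // x < 1}), ∃ (ρ : {x : ℝ // x < 1}) (a : ℝ), R.1 ≤ ρ.1 ∧
      (0 ≤ a ∧ a < 1) ∧ Good m a ρ ((1 / 2) ^ (j + 1) * τ ρ) ((1 / 2) ^ (j + 1)) (j + 1) := by
    intro j R
    obtain ⟨ρ, a, h2, h3, h4⟩ := pick (m := m) (k := (1 / 2) ^ (j + 1)) (Nat.succ_ne_zero j)
      (by positivity) (pow_le_one₀ (by norm_num) (by norm_num)) R.2 h
    exact ⟨⟨ρ, h4.2.1⟩, a, h2, h3, h4⟩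
  choose f g h2 h3 h4 using h1
  let s : ℕ → {x : ℝ // x < 1} := fun j => Nat.rec ⟨0, one_pos⟩ (fun j R => f j R) j
  exact ⟨fun j => (f j (s j)).1, fun j => g j (s j),
    monotone_nat_of_le_succ fun j => h2 (j + 1) (s (j + 1)), fun j => h3 j _, fun j => h4 j _⟩

end Pool.Agent.MP_17fac5_an.H19

end

section

set_option autoImplicit false
open MeasureTheory Filter Topology

namespace Pool.Agent.MP_17fac5_an.H19

/-- The boundary weight. -/
noncomputable def Wf (a : ℕ → ℝ) (z : ℂ) : ℝ := ⨅ J : ℕ, Real.exp (-2 * (Sf a J z).re)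

theorem Wf_meas (a : ℕ → ℝ) : Measurable (Wf a) := by
  refine Measurable.iInf fun J => Real.measurable_exp.comp (measurable_const.mul
    (Complex.measurable_re.comp ?_))
  unfold Sf Hf
  fun_prop

theorem Wf_nonneg (a : ℕ → ℝ) (z : ℂ) : 0 ≤ Wf a z :=
  Real.iInf_nonneg fun _ => (Real.exp_pos _).le

theorem Wf_bdd (a : ℕ → ℝ) (z : ℂ) :
    BddBelow (Set.range fun J : ℕ => Real.exp (-2 * (Sf a J z).re)) :=
  ⟨0, by rintro _ ⟨J, rfl⟩; exact (Real.exp_pos _).le⟩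

theorem Wf_le (a : ℕ → ℝ) (z : ℂ) (J : ℕ) : Wf a z ≤ Real.exp (-2 * (Sf a J z).re) :=
  ciInf_le (Wf_bdd a z) J

theorem Wf_int (a : ℕ → ℝ) :
    (∫⁻ θ in Set.Ioc (0 : ℝ) (2 * Real.pi), ENNReal.ofReal (Wf a (ex θ))) < ⊤ := by
  refine lt_of_le_of_lt (lintegral_mono (g := fun _ => 1) fun θ => ?_)
    (by simp [ENNReal.mul_lt_top])
  simpa [Sf] using Wf_le a (ex θ) 0

theorem Sf_cont {a : ℕ → ℝ} (ha : ∀ i, 0 ≤ a i ∧ a i < 1) (J : ℕ) :
    Continuous fun θ : ℝ => Sf a J (ex θ) :=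
  continuous_iff_continuousAt.2 fun θ => ContinuousAt.comp (g := Sf a J)
    (Sf_diff ha J (norm_ex θ).le).continuousAt cont_ex.continuousAt

theorem Sf_arc {a : ℕ → ℝ} (ha : ∀ i, 0 ≤ a i ∧ a i < 1) {α β : ℝ} (h : α < β) :
    Tendsto (fun J => ∫ θ in α..β, (Sf a J (ex θ)).re) atTop atTop := by
  have h1 : ∀ J, ∫ θ in α..β, (Sf a J (ex θ)).re =
      ∑ i ∈ Finset.range J, ∫ θ in α..β, (Hf (a i) (i + 1) (ex θ)).re := fun J => by
    rw [← intervalIntegral.integral_finsetSum fun i _ =>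
      (Hf_cont (ha i).1 (ha i).2).intervalIntegrable _ _]
    simp [Sf]
  simp only [h1]
  rw [← not_summable_iff_tendsto_nat_atTop_of_nonneg fun i =>
    intervalIntegral.integral_nonneg h.le fun θ _ =>
      Hf_re_nonneg (r := 1) (ha i).1 (by simpa using (ha i).2) (norm_ex θ).le]
  intro hs
  have h2 : Tendsto (fun i : ℕ => β - α - 2 * Real.pi / ((i + 1 : ℕ) : ℝ)) atTop
      (𝓝 (β - α - 0)) :=
    ((tendsto_const_div_atTop_nhds_zero_nat _).comp (tendsto_add_atTop_nat 1)).const_sub _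
  have h3 := le_of_tendsto_of_tendsto' h2 hs.tendsto_atTop_zero fun i =>
    Hf_arc (Nat.succ_ne_zero i) (ha i).1 (ha i).2 h.le
  linarith

theorem Wf_log {a : ℕ → ℝ} (ha : ∀ i, 0 ≤ a i ∧ a i < 1) : LogBad fun θ => Wf a (ex θ) := by
  intro α β h
  have h1 := ENNReal.tendsto_ofReal_atTop.comp (Sf_arc ha h)
  refine top_le_iff.1 (le_of_tendsto' h1 fun J => ?_)
  have hc : Continuous fun θ : ℝ => (Sf a J (ex θ)).re :=
    Complex.continuous_re.comp (Sf_cont ha J)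
  simp only [Function.comp]
  rw [intervalIntegral.integral_of_le h.le, integral_Ioc_eq_integral_Ioo,
    ofReal_integral_eq_lintegral_ofReal
      ((hc.integrableOn_Icc (a := α) (b := β)).mono_set Set.Ioo_subset_Icc_self)
      (ae_of_all _ fun θ => Sf_nonneg ha J (norm_ex θ).le)]
  refine lintegral_mono fun θ => ?_
  split_ifs with h0
  · exact le_top
  · apply ENNReal.ofReal_le_ofReal
    have h2 := Real.log_le_log (lt_of_le_of_ne (Wf_nonneg a _) (Ne.symm h0)) (Wf_le a (ex θ) J)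
    rw [Real.log_exp] at h2
    have h3 := Sf_nonneg ha J (norm_ex θ).le
    linarith

theorem enorm_sq (w : ℂ) : ‖w‖ₑ ^ (2 : ℕ) = ENNReal.ofReal (‖w‖ ^ 2) := by
  rw [ENNReal.ofReal_pow (norm_nonneg _), ofReal_norm]

theorem Wf_lim {a : ℕ → ℝ} (ha : ∀ i, 0 ≤ a i ∧ a i < 1) (q : Polynomial ℂ) {ε : ℝ}
    (h : (∫⁻ θ in Set.Ioc (0 : ℝ) (2 * Real.pi),
      ENNReal.ofReal (Wf a (ex θ)) * ‖q.eval (ex θ)‖ₑ ^ (2 : ℕ)) < ENNReal.ofReal ε) :
    ∃ J, Real.circleAverage (fun z => ‖q.eval z * Complex.exp (-Sf a J z)‖ ^ 2) 0 1 ≤ ε := by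
  have hq : Continuous fun θ : ℝ => q.eval (ex θ) := q.continuous.comp cont_ex
  have hc : ∀ J, Continuous fun θ : ℝ => ‖q.eval (ex θ) * Complex.exp (-Sf a J (ex θ))‖ ^ 2 :=
    fun J => (hq.mul (Sf_cont ha J).neg.cexp).norm.pow 2
  have he : ∀ J θ, ‖q.eval (ex θ) * Complex.exp (-Sf a J (ex θ))‖ ^ 2 =
      Real.exp (-2 * (Sf a J (ex θ)).re) * ‖q.eval (ex θ)‖ ^ 2 := fun J θ => by
    rw [norm_mul, Complex.norm_exp, mul_pow, ← Real.exp_nat_mul, mul_comm, Complex.neg_re]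
    congr 2; push_cast; ring
  have hi : ∀ f : ℝ → ℝ, Continuous f → IntegrableOn f (Set.Ioc 0 (2 * Real.pi)) := fun f hf =>
    (hf.integrableOn_Icc).mono_set Set.Ioc_subset_Icc_self
  have h1 : Tendsto (fun J => ∫⁻ θ in Set.Ioc (0 : ℝ) (2 * Real.pi),
      ENNReal.ofReal (‖q.eval (ex θ) * Complex.exp (-Sf a J (ex θ))‖ ^ 2)) atTop
      (𝓝 (∫⁻ θ in Set.Ioc (0 : ℝ) (2 * Real.pi),
        ENNReal.ofReal (Wf a (ex θ)) * ‖q.eval (ex θ)‖ₑ ^ (2 : ℕ))) := by
    refine tendsto_lintegral_of_dominated_convergence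
      (fun θ => ENNReal.ofReal (‖q.eval (ex θ)‖ ^ 2))
      (fun J => (hc J).measurable.ennreal_ofReal) (fun J => ae_of_all _ fun θ => ?_)
      (hi _ (hq.norm.pow 2)).lintegral_lt_top.ne (ae_of_all _ fun θ => ?_)
    · apply ENNReal.ofReal_le_ofReal
      rw [he]
      refine mul_le_of_le_one_left (by positivity) (Real.exp_le_one_iff.2 ?_)
      linarith [Sf_nonneg ha J (norm_ex θ).le]
    · rw [enorm_sq, ← ENNReal.ofReal_mul (Wf_nonneg a _)]
      simp only [he]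
      refine ENNReal.tendsto_ofReal (Tendsto.mul_const _ (tendsto_atTop_ciInf ?_ (Wf_bdd a _)))
      intro i j hij
      have := Sf_mono ha (norm_ex θ).le hij
      exact Real.exp_le_exp.2 (by simp only at this; linarith)
  obtain ⟨J, hJ⟩ := (h1.eventually_lt_const h).exists
  refine ⟨J, ?_⟩
  rw [← ofReal_integral_eq_lintegral_ofReal (hi _ (hc J)) (ae_of_all _ fun θ => by positivity),
    ENNReal.ofReal_lt_ofReal_iff_of_nonneg (integral_nonneg fun θ => by positivity)] at hJ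
  rw [avg_one, intervalIntegral.integral_of_le Real.two_pi_pos.le]
  refine le_trans (mul_le_of_le_one_left (integral_nonneg fun θ => by positivity) ?_) hJ.le
  exact inv_le_one_of_one_le₀ (by linarith [Real.pi_gt_three])

/-- The new direction: a slowly decaying tail admits a weight without splitting. -/
theorem conv (hsw : SWStmt) (hrad : RadStmt) (G : ℝ → ℝ) (hG : Measurable G)
    (hfin : (∫⁻ z in Metric.ball (0 : ℂ) 1, ENNReal.ofReal (G ‖z‖)) < ⊤)
    (hn : ¬ ∃ c : ℝ, 0 < c ∧ ∀ᶠ r in 𝓝[<] (1 : ℝ),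
      (∫⁻ z in Metric.ball (0 : ℂ) 1 \ Metric.ball (0 : ℂ) r, ENNReal.ofReal (G ‖z‖)) ≤
        ENNReal.ofReal (Real.exp (-c / (1 - r)))) :
    ∃ (a : ℕ → ℝ) (ε : ℝ), (∀ i, 0 ≤ a i ∧ a i < 1) ∧ 0 < ε ∧ ∀ p : Polynomial ℂ,
      (∫⁻ z in Metric.ball (0 : ℂ) 1, ENNReal.ofReal (G ‖z‖) * ‖p.eval z‖ₑ ^ (2 : ℕ)) <
        ENNReal.ofReal ε →
      ¬ (∫⁻ θ in Set.Ioc (0 : ℝ) (2 * Real.pi), ENNReal.ofReal (Wf a (ex θ)) *
        ‖p.eval (ex θ) - (starRingEnd ℂ) (ex θ)‖ₑ ^ (2 : ℕ)) < ENNReal.ofReal ε := by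
  set T : ℝ → ENNReal := fun r =>
    ∫⁻ z in Metric.ball (0 : ℂ) 1 \ Metric.ball (0 : ℂ) r, ENNReal.ofReal (G ‖z‖) with hT
  have hTf : ∀ r, T r ≠ ⊤ := fun r =>
    ((lintegral_mono_set Set.diff_subset).trans_lt hfin).ne
  set V : ℝ := (∫⁻ z in Metric.ball (0 : ℂ) 1, ENNReal.ofReal (G ‖z‖)).toReal with hV
  have hV0 : 0 ≤ V := ENNReal.toReal_nonneg
  obtain ⟨r, a, hr, ha, hg⟩ := pick_seq (τ := fun r => (T r).toReal) (-(V + 6)) fun c hc => by
    have h1 : ¬ ∀ᶠ r in 𝓝[<] (1 : ℝ), T r ≤ ENNReal.ofReal (Real.exp (-c / (1 - r))) :=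
      fun h => hn ⟨c, hc, h⟩
    refine (not_eventually.1 h1).mono fun r h => ?_
    exact (ENNReal.ofReal_lt_iff_lt_toReal (Real.exp_pos _).le (hTf r)).1 (not_le.1 h)
  set ε : ℝ := Real.exp (2 * (-(V + 6))) with hε
  have hε0 : 0 < ε := Real.exp_pos _
  have hε1 : ε ≤ 1 := Real.exp_le_one_iff.2 (by linarith)
  refine ⟨a, ε, ha, hε0, fun p hp1 hp2 => ?_⟩
  set q : Polynomial ℂ := 1 - Polynomial.X * p with hq
  have hqe : ∀ z, q.eval z = 1 - z * p.eval z := fun z => by simp [hq]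
  have hq1 : ∀ θ, ‖p.eval (ex θ) - (starRingEnd ℂ) (ex θ)‖ₑ = ‖q.eval (ex θ)‖ₑ := fun θ => by
    have h1 : q.eval (ex θ) = -ex θ * (p.eval (ex θ) - (starRingEnd ℂ) (ex θ)) := by
      have := Complex.mul_conj' (ex θ)
      rw [norm_ex, Complex.ofReal_one, one_pow] at this
      rw [hqe]; linear_combination -this
    rw [← ofReal_norm, ← ofReal_norm, h1, norm_mul, norm_neg, norm_ex, one_mul]
  simp only [hq1] at hp2
  obtain ⟨J, hJ⟩ := Wf_lim ha q hp2
  have hm : Measurable fun z : ℂ => ENNReal.ofReal (G ‖z‖) :=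
    (hG.comp measurable_norm).ennreal_ofReal
  have hN : (∫⁻ z in Metric.ball (0 : ℂ) 1, ENNReal.ofReal (G ‖z‖) * ‖q.eval z‖ₑ ^ (2 : ℕ)) ≤
      ENNReal.ofReal (2 * V + 2) := by
    calc _ ≤ ∫⁻ z in Metric.ball (0 : ℂ) 1, (2 * ENNReal.ofReal (G ‖z‖) +
            2 * (ENNReal.ofReal (G ‖z‖) * ‖p.eval z‖ₑ ^ (2 : ℕ))) := by
          refine setLIntegral_mono' measurableSet_ball fun z hz => ?_
          have h1 : ‖q.eval z‖ ≤ 1 + ‖p.eval z‖ := by
            rw [hqe]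
            refine (norm_sub_le _ _).trans ?_
            rw [norm_one, norm_mul]
            have : ‖z‖ < 1 := by simpa using hz
            nlinarith [norm_nonneg (p.eval z)]
          have h2 : ‖q.eval z‖ₑ ^ (2 : ℕ) ≤ 2 + 2 * ‖p.eval z‖ₑ ^ (2 : ℕ) := by
            rw [enorm_sq, enorm_sq, ← ENNReal.ofReal_ofNat 2, ← ENNReal.ofReal_mul (by norm_num),
              ← ENNReal.ofReal_add (by norm_num) (by positivity)]
            apply ENNReal.ofReal_le_ofReal
            nlinarith [norm_nonneg (q.eval z), norm_nonneg (p.eval z), sq_nonneg (1 - ‖p.eval z‖)]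
          refine (mul_le_mul_right h2 _).trans (le_of_eq ?_)
          ring
      _ = 2 * (∫⁻ z in Metric.ball (0 : ℂ) 1, ENNReal.ofReal (G ‖z‖)) + 2 *
            ∫⁻ z in Metric.ball (0 : ℂ) 1, ENNReal.ofReal (G ‖z‖) * ‖p.eval z‖ₑ ^ (2 : ℕ) := by
          rw [lintegral_add_left (hm.const_mul 2), lintegral_const_mul' _ _ (by simp),
            lintegral_const_mul' _ _ (by simp)]
      _ ≤ 2 * ENNReal.ofReal V + 2 * 1 := by
          rw [hV, ENNReal.ofReal_toReal hfin.ne]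
          gcongr
          exact hp1.le.trans (ENNReal.ofReal_le_one.2 hε1)
      _ = ENNReal.ofReal (2 * V + 2) := by
          rw [ENNReal.ofReal_add (by positivity) (by norm_num), ENNReal.ofReal_mul (by norm_num)]
          simp
  have h1 := descent hsw (q := q) (N := 2 * V + 2) ha hr hg (fun j => by
    have h2 := (hrad G q (r j) hG (hg j).1.le).trans hN
    have h3 : 0 ≤ Real.circleAverage (fun z => ‖q.eval z‖ ^ 2) 0 (r j) :=
      Real.circleAverage_nonneg_of_nonneg fun z _ => by positivity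
    have h4 := ENNReal.toReal_le_of_le_ofReal (by positivity) h2
    rw [ENNReal.toReal_mul, ENNReal.toReal_ofReal h3] at h4
    rw [mul_assoc]
    exact mul_le_mul_of_nonneg_left h4 (by positivity)) J 1 _ zero_le_one
    (fun i _ => (hg i).2.1.le) (outer hsw q ha (-(V + 6)) J)
  rw [hqe, zero_mul, sub_zero, norm_one, Real.one_le_exp_iff] at h1
  have h5 : Real.exp (-2 * -(V + 6)) * ε = 1 := by
    rw [hε, ← Real.exp_add]; simp
  have h6 := mul_le_mul_of_nonneg_left hJ (Real.exp_pos (-2 * -(V + 6))).le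
  have h7 : 0 < (1 / 2 : ℝ) ^ J := by positivity
  nlinarith

end Pool.Agent.MP_17fac5_an.H19

end

section

set_option autoImplicit false
open MeasureTheory Filter Topology

namespace Pool.Agent.MP_17fac5_an.H19

open Polynomial in
theorem span_SW {r : ℝ} (hr : 0 < r) (T : C(AddCircle (1 : ℝ), ℂ))
    (hT : T ∈ Submodule.span ℂ (Set.range (fourier (T := 1)))) :
    ∃ a b : Polynomial ℂ, ∀ x : AddCircle (1 : ℝ),
      T x = a.eval (r * x.toCircle : ℂ) + (starRingEnd ℂ) (b.eval (r * x.toCircle : ℂ)) := by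
  have hr' : (r : ℂ) ≠ 0 := Complex.ofReal_ne_zero.2 hr.ne'
  have key : ∀ (n : ℕ) (x : AddCircle (1 : ℝ)),
      fourier n x = (C ((r : ℂ) ^ n)⁻¹ * X ^ n).eval (r * x.toCircle : ℂ) := fun n x => by
    rw [fourier_apply, natCast_zsmul, AddCircle.toCircle_nsmul, Circle.coe_pow, eval_mul, eval_C,
      eval_pow, eval_X, mul_pow, inv_mul_cancel_left₀ (pow_ne_zero n hr')]
  induction hT using Submodule.span_induction with
  | mem f hf =>
    obtain ⟨n, rfl⟩ := hf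
    obtain ⟨n, rfl | rfl⟩ := n.eq_nat_or_neg
    · exact ⟨C ((r : ℂ) ^ n)⁻¹ * X ^ n, 0, fun x => by rw [key, eval_zero, map_zero, add_zero]⟩
    · exact ⟨0, C ((r : ℂ) ^ n)⁻¹ * X ^ n, fun x => by rw [fourier_neg, key, eval_zero, zero_add]⟩
  | zero => exact ⟨0, 0, fun x => by simp⟩
  | add f g _ _ hf hg =>
    obtain ⟨a, b, h⟩ := hf
    obtain ⟨a', b', h'⟩ := hg
    refine ⟨a + a', b + b', fun x => ?_⟩
    rw [ContinuousMap.add_apply, h, h', eval_add, eval_add, map_add]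
    ring
  | smul c f _ hf =>
    obtain ⟨a, b, h⟩ := hf
    refine ⟨C c * a, C ((starRingEnd ℂ) c) * b, fun x => ?_⟩
    rw [ContinuousMap.smul_apply, h, eval_mul, eval_mul, eval_C, eval_C, map_mul, Complex.conj_conj,
      smul_eq_mul, mul_add]

theorem swS : SWStmt := by
  intro r φ hr hφ δ hδ
  have hc : Continuous fun x : AddCircle (1 : ℝ) => (r * x.toCircle : ℂ) :=
    continuous_const.mul (continuous_subtype_val.comp AddCircle.continuous_toCircle)
  let Φ : C(AddCircle (1 : ℝ), ℂ) := ⟨fun x => φ (r * x.toCircle), hφ.comp_continuous hc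
    fun x => by simp [abs_of_pos hr, Circle.norm_coe]⟩
  have h1 : Φ ∈ (Submodule.span ℂ (Set.range (fourier (T := 1)))).topologicalClosure := by
    rw [span_fourier_closure_eq_top]
    trivial
  obtain ⟨T, hT, hd⟩ := Metric.mem_closure_iff.1 h1 δ hδ
  obtain ⟨a, b, h⟩ := span_SW hr T hT
  refine ⟨a, b, fun z hz => ?_⟩
  have hz' : ‖z‖ = r := mem_sphere_zero_iff_norm.1 hz
  obtain ⟨x, hx⟩ := (AddCircle.homeomorphCircle (T := 1) one_ne_zero).surjective
    (Circle.exp z.arg)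
  rw [AddCircle.homeomorphCircle_apply] at hx
  have h2 : (r * x.toCircle : ℂ) = z := by
    rw [hx, Circle.coe_exp, ← hz', Complex.norm_mul_exp_arg_mul_I]
  rw [← h2, ← h x, ← dist_eq_norm]
  exact (ContinuousMap.dist_apply_le_dist (f := Φ) x).trans hd.le

end Pool.Agent.MP_17fac5_an.H19

end

section

set_option autoImplicit false
open MeasureTheory Filter Topology

namespace Pool.Agent.MP_17fac5_an.H19

/-- The mean square of a polynomial on the circle of radius `r`. -/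
noncomputable def mm_Rad (q : Polynomial ℂ) (r : ℝ) : ℝ :=
  ∑ k ∈ q.support, ‖q.coeff k‖ ^ 2 * (r ^ k) ^ 2

lemma mm_nonneg_Rad (q : Polynomial ℂ) (r : ℝ) : 0 ≤ mm_Rad q r :=
  Finset.sum_nonneg fun _ _ => by positivity

lemma mm_mono_Rad (q : Polynomial ℂ) {r s : ℝ} (hr : 0 ≤ r) (h : r ≤ s) :
    mm_Rad q r ≤ mm_Rad q s :=
  Finset.sum_le_sum fun k _ => by gcongr

lemma mean_Rad (q : Polynomial ℂ) (z : ℂ) :
    (2 * Real.pi)⁻¹ * ∫ t in (0 : ℝ)..2 * Real.pi, ‖q.eval (circleMap 0 1 t * z)‖ ^ 2 =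
      mm_Rad q ‖z‖ := by
  have h := (q.comp (Polynomial.C z * Polynomial.X)).sum_sq_norm_coeff_eq_circleAverage
  have h1 : ∑ i ∈ (q.comp (Polynomial.C z * Polynomial.X)).support,
      ‖(q.comp (Polynomial.C z * Polynomial.X)).coeff i‖ ^ 2 = mm_Rad q ‖z‖ := by
    unfold mm_Rad
    rw [Finset.sum_subset (s₂ := q.support)]
    · refine Finset.sum_congr rfl fun k _ => ?_
      rw [Polynomial.comp_C_mul_X_coeff, norm_mul, norm_pow, mul_pow]
    · intro k hk
      rw [Polynomial.mem_support_iff, Polynomial.comp_C_mul_X_coeff] at hk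
      exact Polynomial.mem_support_iff.2 (left_ne_zero_of_mul hk)
    · intro k _ hk
      rw [Polynomial.notMem_support_iff.1 hk]
      simp
  rw [← h1, h, Real.circleAverage_def, smul_eq_mul]
  congr 2
  funext t
  rw [Polynomial.eval_comp, Polynomial.eval_mul, Polynomial.eval_C, Polynomial.eval_X, mul_comm z]

lemma avg_Rad (q : Polynomial ℂ) {ρ : ℝ} (hρ : 0 ≤ ρ) :
    Real.circleAverage (fun z => ‖q.eval z‖ ^ 2) 0 ρ = mm_Rad q ρ := by
  have h := mean_Rad q (ρ : ℂ)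
  rw [Complex.norm_real, Real.norm_eq_abs, abs_of_nonneg hρ] at h
  rw [← h, Real.circleAverage_def, smul_eq_mul]
  congr 2
  funext t
  simp [circleMap, mul_comm]

lemma lmean_Rad (q : Polynomial ℂ) (z : ℂ) :
    ∫⁻ t in Set.Ioc (0 : ℝ) (2 * Real.pi), ‖q.eval (circleMap 0 1 t * z)‖ₑ ^ (2 : ℕ) =
      ENNReal.ofReal (2 * Real.pi) * ENNReal.ofReal (mm_Rad q ‖z‖) := by
  have hp : 0 < 2 * Real.pi := by positivity
  have hc : Continuous fun t : ℝ => ‖q.eval (circleMap 0 1 t * z)‖ ^ 2 :=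
    ((q.continuous.comp ((continuous_circleMap 0 1).mul continuous_const)).norm).pow 2
  have h := mean_Rad q z
  rw [intervalIntegral.integral_of_le hp.le] at h
  have h2 : ∫ t in Set.Ioc (0 : ℝ) (2 * Real.pi), ‖q.eval (circleMap 0 1 t * z)‖ ^ 2 =
      2 * Real.pi * mm_Rad q ‖z‖ := by
    rw [← h, ← mul_assoc, mul_inv_cancel₀ hp.ne', one_mul]
  rw [← ENNReal.ofReal_mul hp.le, ← h2, ofReal_integral_eq_lintegral_ofReal
    (hc.integrableOn_Icc.mono_set Set.Ioc_subset_Icc_self)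
    (Eventually.of_forall fun t => by positivity)]
  refine lintegral_congr fun t => ?_
  rw [ENNReal.ofReal_pow (norm_nonneg _), ofReal_norm]

lemma rot_Rad (G : ℝ → ℝ) (hG : Measurable G) (q : Polynomial ℂ) (t : ℝ) :
    ∫⁻ z in Metric.ball (0 : ℂ) 1, ENNReal.ofReal (G ‖z‖) * ‖q.eval z‖ₑ ^ (2 : ℕ) =
      ∫⁻ z in Metric.ball (0 : ℂ) 1,
        ENNReal.ofReal (G ‖z‖) * ‖q.eval (circleMap 0 1 t * z)‖ₑ ^ (2 : ℕ) := by
  have hm : Measurable fun z : ℂ => ENNReal.ofReal (G ‖z‖) * ‖q.eval z‖ₑ ^ (2 : ℕ) :=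
    (hG.comp measurable_norm).ennreal_ofReal.mul (q.continuous.measurable.enorm.pow_const 2)
  have h := (rotation (Circle.exp t)).measurePreserving.setLIntegral_comp_preimage
    (s := Metric.ball (0 : ℂ) 1) measurableSet_ball hm
  have h1 : (rotation (Circle.exp t)) ⁻¹' Metric.ball (0 : ℂ) 1 = Metric.ball (0 : ℂ) 1 := by
    ext z
    simp only [Set.mem_preimage, mem_ball_zero_iff, LinearIsometryEquiv.norm_map]
  rw [h1] at h
  rw [← h]
  refine lintegral_congr fun z => ?_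
  rw [LinearIsometryEquiv.norm_map, rotation_apply, Circle.coe_exp]
  simp [circleMap]

theorem radS : RadStmt := by
  intro G q ρ hG hρ
  have hp : 0 < 2 * Real.pi := by positivity
  have hG' : Measurable fun z : ℂ => ENNReal.ofReal (G ‖z‖) :=
    (hG.comp measurable_norm).ennreal_ofReal
  have hm : Measurable (Function.uncurry fun (t : ℝ) (z : ℂ) =>
      ENNReal.ofReal (G ‖z‖) * ‖q.eval (circleMap 0 1 t * z)‖ₑ ^ (2 : ℕ)) := by
    have hc : Continuous fun p : ℝ × ℂ => q.eval (circleMap 0 1 p.1 * p.2) :=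
      q.continuous.comp (((continuous_circleMap 0 1).comp continuous_fst).mul continuous_snd)
    exact (hG'.comp measurable_snd).mul (hc.measurable.enorm.pow_const 2)
  have h1 : ENNReal.ofReal (2 * Real.pi) *
      ∫⁻ z in Metric.ball (0 : ℂ) 1, ENNReal.ofReal (G ‖z‖) * ‖q.eval z‖ₑ ^ (2 : ℕ) =
      ∫⁻ z in Metric.ball (0 : ℂ) 1, ENNReal.ofReal (G ‖z‖) *
        (ENNReal.ofReal (2 * Real.pi) * ENNReal.ofReal (mm_Rad q ‖z‖)) := by
    have e1 : ENNReal.ofReal (2 * Real.pi) *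
        ∫⁻ z in Metric.ball (0 : ℂ) 1, ENNReal.ofReal (G ‖z‖) * ‖q.eval z‖ₑ ^ (2 : ℕ) =
        ∫⁻ t in Set.Ioc (0 : ℝ) (2 * Real.pi), ∫⁻ z in Metric.ball (0 : ℂ) 1,
          ENNReal.ofReal (G ‖z‖) * ‖q.eval (circleMap 0 1 t * z)‖ₑ ^ (2 : ℕ) := by
      rw [← lintegral_congr fun t => rot_Rad G hG q t, setLIntegral_const, Real.volume_Ioc,
        sub_zero, mul_comm]
    rw [e1, lintegral_lintegral_swap hm.aemeasurable]
    refine lintegral_congr fun z => ?_
    rw [lintegral_const_mul' _ _ ENNReal.ofReal_ne_top, lmean_Rad]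
  have h2 : (∫⁻ z in Metric.ball (0 : ℂ) 1 \ Metric.ball (0 : ℂ) ρ, ENNReal.ofReal (G ‖z‖)) *
      (ENNReal.ofReal (2 * Real.pi) * ENNReal.ofReal (mm_Rad q ρ)) ≤
      ∫⁻ z in Metric.ball (0 : ℂ) 1, ENNReal.ofReal (G ‖z‖) *
        (ENNReal.ofReal (2 * Real.pi) * ENNReal.ofReal (mm_Rad q ‖z‖)) := by
    rw [← lintegral_mul_const _ hG']
    refine le_trans ?_ (lintegral_mono_set
      (Set.sdiff_subset (s := Metric.ball (0 : ℂ) 1) (t := Metric.ball (0 : ℂ) ρ)))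
    refine setLIntegral_mono' (measurableSet_ball.diff measurableSet_ball) fun z hz => ?_
    have hz2 : ρ ≤ ‖z‖ := by
      have := hz.2
      rw [mem_ball_zero_iff] at this
      exact not_lt.1 this
    have := ENNReal.ofReal_le_ofReal (mm_mono_Rad q hρ hz2)
    gcongr
  rw [← h1, mul_left_comm] at h2
  rw [avg_Rad q hρ]
  exact (ENNReal.mul_le_mul_iff_right (ENNReal.ofReal_pos.2 hp).ne' ENNReal.ofReal_ne_top).1 h2

end Pool.Agent.MP_17fac5_an.H19

end

section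

set_option autoImplicit false
open MeasureTheory Filter Topology

namespace Pool.Agent.MP_17fac5_an.H19

lemma exp_le_One {a b c : ℝ} (ha : a ≤ c) : Real.exp a ≤ Real.exp b + Real.exp c * |a - b| := by
  have h1 := Real.add_one_le_exp (b - a)
  have h2 : Real.exp b = Real.exp a * Real.exp (b - a) := by rw [← Real.exp_add]; congr 1; ring
  have h3 := Real.exp_pos a
  have h4 : Real.exp a * (a - b) ≤ Real.exp c * |a - b| :=
    (mul_le_mul_of_nonneg_left (le_abs_self _) h3.le).trans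
      (mul_le_mul_of_nonneg_right (Real.exp_le_exp.2 ha) (abs_nonneg _))
  nlinarith

lemma sum_sub_one_One (x : ℂ) (n : ℕ) :
    ‖∑ k ∈ Finset.range (n + 1), x ^ k / (k.factorial : ℂ) - 1‖ ≤ Real.exp ‖x‖ - 1 := by
  have h := Real.sum_le_exp_of_nonneg (norm_nonneg x) (n + 1)
  rw [Finset.sum_range_succ'] at h ⊢
  simp only [pow_zero, Nat.factorial_zero, Nat.cast_one, div_one, add_sub_cancel_right] at h ⊢
  refine (norm_sum_le _ _).trans ?_
  simp only [norm_div, norm_pow, Complex.norm_natCast]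
  linarith

lemma enorm_sq_One (x : ℂ) : ‖x‖ₑ ^ (2 : ℕ) = ENNReal.ofReal (‖x‖ ^ 2) := by
  rw [ENNReal.ofReal_pow (norm_nonneg _), ofReal_norm_eq_enorm]

theorem oneS (h1 : RealStmt) (h2 : AppStmt) (h3 : DerStmt) : OneStmt := by
  intro ν w hν hmom hw hw0 hfin hbad ε hε
  have pi0 := Real.pi_pos
  set μ : Measure ℝ := volume.restrict (Set.Ioc (0 : ℝ) (2 * Real.pi)) with hμ
  obtain ⟨K, K0, hK⟩ : ∃ K : ℝ, 0 ≤ K ∧ ∫⁻ θ, ENNReal.ofReal (w θ) ∂μ = ENNReal.ofReal K :=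
    ⟨_, ENNReal.toReal_nonneg, (ENNReal.ofReal_toReal hfin.ne).symm⟩
  have hμu : μ Set.univ = ENNReal.ofReal (2 * Real.pi) := by simp [hμ]
  obtain ⟨η₀, η₀0, hη₀⟩ := hmom ε hε
  obtain ⟨N, N1, hN⟩ : ∃ N : ℝ, 1 ≤ N ∧
      2 * Real.exp (-(N - 1)) ^ 2 * (2 * K + 2 * Real.pi + 1) < ε := by
    have c0 : 0 < 2 * (2 * K + 2 * Real.pi + 1) / ε := by positivity
    have c1 : 2 * (2 * K + 2 * Real.pi + 1) / ε * ε = 2 * (2 * K + 2 * Real.pi + 1) := by
      field_simp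
    generalize 2 * (2 * K + 2 * Real.pi + 1) / ε = c at c0 c1
    refine ⟨1 + c / 2, by linarith, ?_⟩
    have e1 : Real.exp (-(1 + c / 2 - 1)) ^ 2 * Real.exp c = 1 := by
      rw [← Real.exp_nat_mul, ← Real.exp_add, ← Real.exp_zero]; congr 1; push_cast; ring
    have e2 := Real.add_one_le_exp c
    have e3 : 0 < Real.exp (-(1 + c / 2 - 1)) ^ 2 := by positivity
    generalize Real.exp (-(1 + c / 2 - 1)) ^ 2 = E at e1 e3
    have e4 : E * c < 1 := by nlinarith
    nlinarith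
  obtain ⟨η, η0, η1, η2⟩ : ∃ η : ℝ, 0 < η ∧ η ≤ 1 / 2 ∧ η ≤ η₀ / 80 :=
    ⟨min (1 / 2) (η₀ / 80), by positivity, min_le_left _ _, min_le_right _ _⟩
  obtain ⟨φ, M, hφ, hφM, hφw, hφN⟩ := h1 w hw hw0 hbad N η (by linarith) η0
  obtain ⟨δ, δ0, δ1, δ2⟩ : ∃ δ : ℝ, 0 < δ ∧ δ ≤ η ∧ 2 * Real.exp (2 * (M + 1)) * δ ≤ 1 := by
    refine ⟨min η (1 / (2 * Real.exp (2 * (M + 1)))), by positivity, min_le_left _ _, ?_⟩
    refine (mul_le_mul_of_nonneg_left (min_le_right _ _) (by positivity)).trans (le_of_eq ?_)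
    field_simp
  have hwm : Measurable fun θ => ENNReal.ofReal (w θ) := hw.ennreal_ofReal
  have hf : Measurable fun θ => 1 + ENNReal.ofReal (w θ) := measurable_const.add hwm
  have : IsFiniteMeasure (μ.withDensity fun θ => 1 + ENNReal.ofReal (w θ)) := by
    refine isFiniteMeasure_withDensity ?_
    rw [lintegral_add_left measurable_const, hK, lintegral_const, hμu]
    simp [ENNReal.mul_eq_top]
  obtain ⟨F, hF1, hF2⟩ := h2 (μ.withDensity fun θ => 1 + ENNReal.ofReal (w θ)) φ M δ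
    ((withDensity_absolutelyContinuous μ _).ae_le (ae_restrict_mem measurableSet_Ioc)) hφ hφM δ0
  have uc : Continuous fun θ : ℝ => (F.eval (ex θ)).re := by fun_prop
  have hg : Measurable fun θ => ENNReal.ofReal |(F.eval (ex θ)).re - φ θ| :=
    (continuous_abs.measurable.comp (uc.measurable.sub hφ)).ennreal_ofReal
  rw [lintegral_withDensity_eq_lintegral_mul _ hf hg] at hF2
  have J1 : ∫⁻ θ, ENNReal.ofReal |(F.eval (ex θ)).re - φ θ| ∂μ ≤ ENNReal.ofReal δ :=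
    le_trans (lintegral_mono fun θ => le_mul_of_one_le_left' le_self_add) hF2
  have J2 : ∫⁻ θ, ENNReal.ofReal (w θ) * ENNReal.ofReal |(F.eval (ex θ)).re - φ θ| ∂μ ≤
      ENNReal.ofReal δ :=
    le_trans (lintegral_mono fun θ => mul_le_mul_left le_add_self _) hF2
  obtain ⟨d1, d2⟩ := h3 F N (2 * η) (by positivity) (fun t ht => by
    have i1 : IntervalIntegrable (fun θ : ℝ => (F.eval (ex θ)).re) volume 0 t :=
      uc.intervalIntegrable _ _
    have i2 : IntervalIntegrable φ volume 0 t :=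
      (intervalIntegrable_const (c := M)).mono_fun' hφ.aestronglyMeasurable
        (Eventually.of_forall fun θ => by
          simpa [abs_of_nonneg (hφM θ).1] using (hφM θ).2)
    have i3 : |∫ θ in (0 : ℝ)..t, ((F.eval (ex θ)).re - φ θ)| ≤ δ := by
      rw [intervalIntegral.integral_of_le ht.1, ← Real.norm_eq_abs]
      refine (norm_integral_le_lintegral_norm _).trans (ENNReal.toReal_le_of_le_ofReal δ0.le ?_)
      exact le_trans (lintegral_mono_set (Set.Ioc_subset_Ioc_right ht.2)) J1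
    rw [intervalIntegral.integral_sub i1 i2] at i3
    have i4 := abs_le.1 (hφN t ht)
    have i5 := abs_le.1 i3
    exact abs_le.2 ⟨by linarith [i4.1, i5.1], by linarith [i4.2, i5.2]⟩)
  obtain ⟨B, hB⟩ := (isCompact_sphere (0 : ℂ) 1).exists_bound_of_continuousOn
    (f := fun z => F.eval z - F.eval 0) (by fun_prop)
  have hB' : ∀ θ : ℝ, ‖F.eval (ex θ) - F.eval 0‖ ≤ B := fun θ =>
    hB _ (by simp [Complex.norm_exp_ofReal_mul_I])
  have E0 : 0 < Real.exp (-(N - 1)) := Real.exp_pos _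
  obtain ⟨n, n1, n2⟩ : ∃ n : ℕ, 2 * B ≤ n ∧
      B ^ (n + 1) / (n + 1).factorial ≤ Real.exp (-(N - 1)) / 2 := by
    have t1 := ((FloorSemiring.tendsto_pow_div_factorial_atTop B).comp
      (tendsto_add_atTop_nat 1)).eventually (ge_mem_nhds (half_pos E0))
    have t2 := (tendsto_natCast_atTop_atTop (R := ℝ)).eventually_ge_atTop (2 * B)
    exact (t2.and t1).exists
  let h : Polynomial ℂ := ∑ k ∈ Finset.range (n + 1),
    Polynomial.C (1 / (k.factorial : ℂ)) * (F - Polynomial.C (F.eval 0)) ^ k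
  have he : ∀ z, h.eval z =
      ∑ k ∈ Finset.range (n + 1), (F.eval z - F.eval 0) ^ k / (k.factorial : ℂ) := fun z => by
    simp only [h, Polynomial.eval_finset_sum, Polynomial.eval_mul, Polynomial.eval_C,
      Polynomial.eval_pow, Polynomial.eval_sub]
    exact Finset.sum_congr rfl fun k _ => by ring
  refine ⟨h, by rw [he, Finset.sum_range_succ']; simp, ?_, ?_⟩
  · have pt : ∀ θ : ℝ, w θ * ‖h.eval (ex θ)‖ ^ 2 ≤ 2 * Real.exp (-(N - 1)) ^ 2 *
        (2 * w θ + 1 + 2 * Real.exp (2 * (M + 1)) * (w θ * |(F.eval (ex θ)).re - φ θ|)) := by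
      intro θ
      have b0 := hB' θ
      have b1 := Complex.exp_bound' (x := F.eval (ex θ) - F.eval 0) (n := n + 1) (by
        rw [div_le_iff₀ (by positivity)]; push_cast; linarith)
      rw [← he] at b1
      have b2 : ‖F.eval (ex θ) - F.eval 0‖ ^ (n + 1) / (n + 1).factorial ≤
          B ^ (n + 1) / (n + 1).factorial := by gcongr
      have b3 : ‖Complex.exp (F.eval (ex θ) - F.eval 0)‖ ≤
          Real.exp (-(N - 1)) * Real.exp (F.eval (ex θ)).re := by
        rw [Complex.norm_exp, ← Real.exp_add, Complex.sub_re]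
        have := (abs_le.1 d1).1
        exact Real.exp_le_exp.2 (by linarith)
      have b4 : ‖h.eval (ex θ)‖ ≤ Real.exp (-(N - 1)) * (Real.exp (F.eval (ex θ)).re + 1) := by
        have := norm_le_norm_add_norm_sub (Complex.exp (F.eval (ex θ) - F.eval 0)) (h.eval (ex θ))
        nlinarith
      have b5 : Real.exp (2 * (F.eval (ex θ)).re) ≤ Real.exp (2 * φ θ) +
          Real.exp (2 * (M + 1)) * |2 * (F.eval (ex θ)).re - 2 * φ θ| :=
        exp_le_One (by linarith [hF1 θ])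
      rw [← mul_sub, abs_mul, abs_two, two_mul (F.eval (ex θ)).re, Real.exp_add] at b5
      have b6 : Real.exp (2 * φ θ) * w θ ≤ w θ + 1 :=
        (hφw θ).trans (max_le (by linarith) (by linarith [hw0 θ]))
      have w0 := hw0 θ
      have b7 := pow_le_pow_left₀ (norm_nonneg _) b4 2
      generalize Real.exp (-(N - 1)) = E at *
      generalize Real.exp (F.eval (ex θ)).re = U at *
      have b8 : (E * (U + 1)) ^ 2 ≤ 2 * E ^ 2 * (U * U + 1) := by
        nlinarith [mul_nonneg (sq_nonneg E) (sq_nonneg (U - 1))]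
      have b9 := mul_le_mul_of_nonneg_left b5 w0
      calc w θ * ‖h.eval (ex θ)‖ ^ 2 ≤ w θ * (2 * E ^ 2 * (U * U + 1)) :=
            mul_le_mul_of_nonneg_left (b7.trans b8) w0
        _ = 2 * E ^ 2 * (w θ * (U * U) + w θ) := by ring
        _ ≤ _ := mul_le_mul_of_nonneg_left (by nlinarith) (by positivity)
    have D0 : 0 ≤ 2 * Real.exp (2 * (M + 1)) := by positivity
    have A0 : 0 ≤ 2 * Real.exp (-(N - 1)) ^ 2 := by positivity
    generalize 2 * Real.exp (2 * (M + 1)) = D at pt δ2 D0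
    generalize 2 * Real.exp (-(N - 1)) ^ 2 = A at pt hN A0
    calc _ ≤ ∫⁻ θ, ENNReal.ofReal A * (ENNReal.ofReal 2 * ENNReal.ofReal (w θ) + 1 +
          ENNReal.ofReal D * (ENNReal.ofReal (w θ) *
            ENNReal.ofReal |(F.eval (ex θ)).re - φ θ|)) ∂μ := by
          refine lintegral_mono fun θ => ?_
          have w0 := hw0 θ
          rw [enorm_sq_One, ← ENNReal.ofReal_mul w0, ← ENNReal.ofReal_mul w0,
            ← ENNReal.ofReal_mul D0, ← ENNReal.ofReal_mul zero_le_two, ← ENNReal.ofReal_one,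
            ← ENNReal.ofReal_add (by positivity) zero_le_one,
            ← ENNReal.ofReal_add (by positivity) (by positivity), ← ENNReal.ofReal_mul A0]
          exact ENNReal.ofReal_le_ofReal (pt θ)
      _ ≤ ENNReal.ofReal A * (ENNReal.ofReal 2 * ENNReal.ofReal K + ENNReal.ofReal (2 * Real.pi) +
          ENNReal.ofReal D * ENNReal.ofReal δ) := by
          have hm2 : Measurable fun θ => ENNReal.ofReal 2 * ENNReal.ofReal (w θ) + 1 :=
            (hwm.const_mul _).add measurable_const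
          rw [lintegral_const_mul' _ _ ENNReal.ofReal_ne_top, lintegral_add_left hm2,
            lintegral_add_left (hwm.const_mul _), lintegral_const_mul' _ _ ENNReal.ofReal_ne_top,
            lintegral_const_mul' _ _ ENNReal.ofReal_ne_top, hK, lintegral_const, one_mul, hμu]
          gcongr
      _ = ENNReal.ofReal (A * (2 * K + 2 * Real.pi + D * δ)) := by
          rw [← ENNReal.ofReal_mul D0, ← ENNReal.ofReal_mul zero_le_two,
            ← ENNReal.ofReal_add (by positivity) (by positivity),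
            ← ENNReal.ofReal_add (by positivity) (by positivity), ← ENNReal.ofReal_mul A0]
      _ < _ := by
          refine (ENNReal.ofReal_lt_ofReal_iff hε).2 (lt_of_le_of_lt ?_ hN)
          gcongr
  · refine lt_of_le_of_lt (lintegral_mono_ae ?_) hη₀
    filter_upwards [hν] with z hz
    rw [enorm_sq_One, he]
    refine ENNReal.ofReal_le_ofReal (pow_le_pow_left₀ (norm_nonneg _) ?_ 2)
    refine (sum_sub_one_One _ n).trans (sub_le_sub_right (Real.exp_le_exp.2 ?_) 1)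
    refine (d2 z hz).trans (div_le_div_of_nonneg_right (by linarith) (by linarith))

end Pool.Agent.MP_17fac5_an.H19

end

section

set_option autoImplicit false
open MeasureTheory Filter Topology

namespace Pool.Agent.MP_17fac5_an.H19

theorem sq_Fin (μ : Measure ℂ) (f : ℂ → ℂ) :
    (∫⁻ z, ‖f z‖ₑ ^ (2 : ℕ) ∂μ) = eLpNorm f 2 μ ^ (2 : ℕ) := by
  have h := eLpNorm_nnreal_pow_eq_lintegral (f := f) (μ := μ) (p := 2) (by norm_num)
  have e : ((2 : NNReal) : ℝ) = ((2 : ℕ) : ℝ) := by norm_num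
  simp only [e, ENNReal.rpow_natCast] at h
  rw [← h]; rfl

theorem lt_iff_Fin (μ : Measure ℂ) (f : ℂ → ℂ) {e : ℝ} (he : 0 < e) :
    (∫⁻ z, ‖f z‖ₑ ^ (2 : ℕ) ∂μ) < ENNReal.ofReal (e ^ 2) ↔ eLpNorm f 2 μ < ENNReal.ofReal e := by
  rw [sq_Fin, ENNReal.ofReal_pow he.le]
  exact ENNReal.pow_lt_pow_left_iff (by norm_num)

theorem mul_Fin (μ : Measure ℂ) {f g : ℂ → ℂ} {K e : ℝ} (hK : 0 ≤ K) (he : 0 < e)
    (b : ∀ᵐ z ∂μ, ‖f z‖ ≤ K * ‖g z‖) (c : eLpNorm g 2 μ < ENNReal.ofReal (e / (K + 1))) :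
    eLpNorm f 2 μ < ENNReal.ofReal e := by
  refine (eLpNorm_le_mul_eLpNorm_of_ae_le_mul b 2).trans_lt ?_
  refine (mul_le_mul_right c.le _).trans_lt ?_
  rw [← ENNReal.ofReal_mul hK, ENNReal.ofReal_lt_ofReal_iff he, ← mul_div_assoc,
    div_lt_iff₀ (by linarith)]
  linarith

theorem add_Fin (μ : Measure ℂ) {f f1 f2 : ℂ → ℂ} {e : ℝ} (he : 0 < e) (h1 : Measurable f1)
    (h2 : Measurable f2) (b : ∀ᵐ z ∂μ, f z = f1 z + f2 z)
    (c1 : eLpNorm f1 2 μ < ENNReal.ofReal (e / 2)) (c2 : eLpNorm f2 2 μ < ENNReal.ofReal (e / 2)) :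
    eLpNorm f 2 μ < ENNReal.ofReal e := by
  have : eLpNorm f 2 μ = eLpNorm (f1 + f2) 2 μ := eLpNorm_congr_ae b
  rw [this]
  refine (eLpNorm_add_le h1.aestronglyMeasurable h2.aestronglyMeasurable (by norm_num)).trans_lt ?_
  refine (ENNReal.add_lt_add c1 c2).trans_eq ?_
  rw [← ENNReal.ofReal_add (by linarith) (by linarith)]; congr 1; ring

/-- Approximable by polynomials in the square mean. -/
def Ap_Fin (μ : Measure ℂ) (f : ℂ → ℂ) : Prop :=
  Measurable f ∧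
    ∀ e : ℝ, 0 < e → ∃ p : Polynomial ℂ, eLpNorm (fun z => p.eval z - f z) 2 μ < ENNReal.ofReal e

theorem meas_Fin (p : Polynomial ℂ) : Measurable fun z : ℂ => p.eval z :=
  p.continuous.measurable

theorem ap_poly_Fin (μ : Measure ℂ) (p : Polynomial ℂ) : Ap_Fin μ fun z => p.eval z :=
  ⟨meas_Fin p, fun e he => ⟨p, by simpa using he⟩⟩

theorem ap_add_Fin {μ : Measure ℂ} {f g : ℂ → ℂ} (hf : Ap_Fin μ f) (hg : Ap_Fin μ g) :
    Ap_Fin μ fun z => f z + g z := by
  refine ⟨hf.1.add hg.1, fun e he => ?_⟩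
  obtain ⟨p, hp⟩ := hf.2 (e / 2) (by linarith)
  obtain ⟨q, hq⟩ := hg.2 (e / 2) (by linarith)
  refine ⟨p + q, add_Fin μ he ((meas_Fin p).sub hf.1) ((meas_Fin q).sub hg.1) ?_ hp hq⟩
  exact .of_forall fun z => by simp only [Polynomial.eval_add, Pi.sub_apply]; ring

theorem ap_mul_Fin {μ : Measure ℂ} {f : ℂ → ℂ} (c : ℂ) (hf : Ap_Fin μ f) :
    Ap_Fin μ fun z => c * f z := by
  refine ⟨hf.1.const_mul c, fun e he => ?_⟩
  obtain ⟨p, hp⟩ := hf.2 (e / (‖c‖ + 1)) (by positivity)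
  refine ⟨Polynomial.C c * p, mul_Fin μ (norm_nonneg c) he (.of_forall fun z => ?_) hp⟩
  rw [Polynomial.eval_mul, Polynomial.eval_C, ← mul_sub, norm_mul]

theorem ap_lim_Fin {μ : Measure ℂ} {f : ℂ → ℂ} (hf : Measurable f)
    (h : ∀ e : ℝ, 0 < e → ∃ g, Ap_Fin μ g ∧
      eLpNorm (fun z => g z - f z) 2 μ < ENNReal.ofReal e) : Ap_Fin μ f := by
  refine ⟨hf, fun e he => ?_⟩
  obtain ⟨g, hg, h1⟩ := h (e / 2) (by linarith)
  obtain ⟨p, hp⟩ := hg.2 (e / 2) (by linarith)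
  exact ⟨p, add_Fin μ he ((meas_Fin p).sub hg.1) (hg.1.sub hf)
    (.of_forall fun z => by simp only [Pi.sub_apply]; ring) hp h1⟩

theorem divX_Fin (p : Polynomial ℂ) {z : ℂ} (hz : ‖z‖ = 1) :
    (starRingEnd ℂ) z * p.eval z = p.eval 0 * (starRingEnd ℂ) z + p.divX.eval z := by
  have h1 : (starRingEnd ℂ) z * z = 1 := by
    rw [mul_comm, Complex.mul_conj, Complex.normSq_eq_norm_sq, hz]; norm_num
  have h2 : p.eval z = p.divX.eval z * z + p.eval 0 := by
    conv_lhs => rw [← Polynomial.divX_mul_X_add p]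
    simp [Polynomial.coeff_zero_eq_eval_zero]
  rw [h2]
  linear_combination (p.divX.eval z) * h1

theorem ap_conj_mul_Fin {μ : Measure ℂ} (hμ : ∀ᵐ z ∂μ, ‖z‖ = 1)
    (hc : Ap_Fin μ fun z => (starRingEnd ℂ) z) {f : ℂ → ℂ} (hf : Ap_Fin μ f) :
    Ap_Fin μ fun z => (starRingEnd ℂ) z * f z := by
  refine ap_lim_Fin (hc.1.mul hf.1) fun e he => ?_
  obtain ⟨p, hp⟩ := hf.2 e he
  refine ⟨_, ap_add_Fin (ap_mul_Fin (p.eval 0) hc) (ap_poly_Fin μ p.divX), ?_⟩
  refine (eLpNorm_mono_ae (hμ.mono fun z hz => ?_)).trans_lt hp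
  rw [← divX_Fin p hz, ← mul_sub, norm_mul, Complex.norm_conj, hz, one_mul]

theorem ap_conj_poly_Fin {μ : Measure ℂ} (hμ : ∀ᵐ z ∂μ, ‖z‖ = 1)
    (hc : Ap_Fin μ fun z => (starRingEnd ℂ) z) (b : Polynomial ℂ) :
    Ap_Fin μ fun z => (starRingEnd ℂ) (b.eval z) := by
  have hpow : ∀ n : ℕ, Ap_Fin μ fun z => (starRingEnd ℂ) z ^ n := by
    intro n
    induction n with
    | zero => simpa using ap_poly_Fin μ 1
    | succ n ih => simpa only [pow_succ'] using ap_conj_mul_Fin hμ hc ih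
  induction b using Polynomial.induction_on' with
  | add p q hp hq => simpa only [Polynomial.eval_add, map_add] using ap_add_Fin hp hq
  | monomial n a =>
    simpa only [Polynomial.eval_monomial, map_mul, map_pow] using
      ap_mul_Fin ((starRingEnd ℂ) a) (hpow n)

theorem finS (h : SWStmt) : FinStmt := by
  intro μ ν _ hμ hν hh g hg hg2 ε hε
  have hh' : ∀ e : ℝ, 0 < e → ∃ h : Polynomial ℂ, h.eval 0 = 1 ∧
      eLpNorm (fun z => h.eval z) 2 μ < ENNReal.ofReal e ∧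
      eLpNorm (fun z => h.eval z - 1) 2 ν < ENNReal.ofReal e := by
    intro e he
    obtain ⟨p, h0, h1, h2⟩ := hh (e ^ 2) (by positivity)
    exact ⟨p, h0, (lt_iff_Fin μ _ he).1 h1, (lt_iff_Fin ν _ he).1 h2⟩
  have hc : Ap_Fin μ fun z => (starRingEnd ℂ) z := by
    refine ⟨Complex.continuous_conj.measurable, fun e he => ?_⟩
    obtain ⟨p, h0, h1, _⟩ := hh' e he
    refine ⟨-p.divX, (eLpNorm_mono_ae (hμ.mono fun z hz => ?_)).trans_lt h1⟩
    have h2 := divX_Fin p hz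
    rw [h0] at h2
    have h3 : (-p.divX).eval z - (starRingEnd ℂ) z = -((starRingEnd ℂ) z * p.eval z) := by
      rw [Polynomial.eval_neg, h2]; ring
    rw [h3, norm_neg, norm_mul, Complex.norm_conj, hz, one_mul]
  have hcont : ∀ ψ : ℂ → ℂ, Continuous ψ → Ap_Fin μ ψ := by
    intro ψ hψ
    refine ap_lim_Fin hψ.measurable fun e he => ?_
    have h1 : eLpNorm (fun _ : ℂ => (1 : ℂ)) 2 μ ≠ ⊤ := (memLp_const (1 : ℂ)).eLpNorm_ne_top
    set K := (eLpNorm (fun _ : ℂ => (1 : ℂ)) 2 μ).toReal with hK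
    have hK0 : 0 ≤ K := ENNReal.toReal_nonneg
    obtain ⟨a, b, hab⟩ := h 1 ψ one_pos hψ.continuousOn (e / (K + 1)) (by positivity)
    refine ⟨_, ap_add_Fin (ap_poly_Fin μ a) (ap_conj_poly_Fin hμ hc b), ?_⟩
    have h2 : ∀ᵐ z ∂μ, ‖a.eval z + (starRingEnd ℂ) (b.eval z) - ψ z‖ ≤
        e / (K + 1) * ‖(fun _ : ℂ => (1 : ℂ)) z‖ := hμ.mono fun z hz => by
      rw [norm_sub_rev, norm_one, mul_one]
      exact hab z (by simpa using hz)
    refine (eLpNorm_le_mul_eLpNorm_of_ae_le_mul h2 2).trans_lt ?_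
    rw [← ENNReal.ofReal_toReal h1, ← hK, ← ENNReal.ofReal_mul (by positivity),
      ENNReal.ofReal_lt_ofReal_iff he, div_mul_eq_mul_div, div_lt_iff₀ (by linarith)]
    linarith
  have hgL : MemLp g 2 μ := by
    refine ⟨hg.aestronglyMeasurable, ?_⟩
    rw [sq_Fin] at hg2
    exact lt_top_iff_ne_top.2 fun e => by simp [e] at hg2
  have hag : Ap_Fin μ g := by
    refine ap_lim_Fin hg fun e he => ?_
    obtain ⟨ψ, h1, _⟩ := hgL.exists_boundedContinuous_eLpNorm_sub_le (by norm_num)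
      (ε := ENNReal.ofReal (e / 2)) (by simpa using he)
    refine ⟨ψ, hcont ψ ψ.continuous, ?_⟩
    have h2 : eLpNorm (fun z => ψ z - g z) 2 μ = eLpNorm (g - ⇑ψ) 2 μ :=
      eLpNorm_congr_norm_ae (.of_forall fun z => norm_sub_rev _ _)
    rw [h2]
    exact h1.trans_lt ((ENNReal.ofReal_lt_ofReal_iff he).2 (by linarith))
  set e := Real.sqrt ε with he'
  have he : 0 < e := Real.sqrt_pos.2 hε
  have hε' : ε = e ^ 2 := (Real.sq_sqrt hε.le).symm
  obtain ⟨p, hp⟩ := hag.2 (e / 2) (by linarith)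
  obtain ⟨B, hB⟩ := (isCompact_closedBall (0 : ℂ) 1).exists_bound_of_continuousOn
    (f := fun z => p.eval z) p.continuous.continuousOn
  have hB0 : 0 ≤ B := (norm_nonneg _).trans (hB 0 (by simp))
  obtain ⟨q, _, h1, h2⟩ := hh' (e / 2 / (B + 1)) (by positivity)
  refine ⟨p * (1 - q), ?_, ?_⟩
  · rw [hε', lt_iff_Fin ν _ he]
    refine (mul_Fin ν hB0 (by linarith : 0 < e / 2) (hν.mono fun z hz => ?_) h2).trans
      ((ENNReal.ofReal_lt_ofReal_iff he).2 (by linarith))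
    rw [Polynomial.eval_mul, Polynomial.eval_sub, Polynomial.eval_one, norm_mul, norm_sub_rev]
    exact mul_le_mul_of_nonneg_right (hB z (by simpa using hz.le)) (norm_nonneg _)
  · rw [hε', lt_iff_Fin μ _ he]
    refine add_Fin μ he ((meas_Fin p).sub hg) (meas_Fin (-(p * q))) (.of_forall fun z => ?_) hp
      (mul_Fin μ hB0 (by linarith) (hμ.mono fun z hz => ?_) h1)
    · simp only [Polynomial.eval_mul, Polynomial.eval_sub, Polynomial.eval_one,
        Polynomial.eval_neg, Pi.sub_apply]; ring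
    · rw [Polynomial.eval_neg, norm_neg, Polynomial.eval_mul, norm_mul]
      exact mul_le_mul_of_nonneg_right (hB z (by simpa using hz.le)) (norm_nonneg _)

end Pool.Agent.MP_17fac5_an.H19

end

section

set_option autoImplicit false
open MeasureTheory Filter Topology

namespace Pool.Agent.MP_17fac5_an.H19

theorem fin_Tail (ν : Measure ℂ) [IsFiniteMeasure ν] (c : ℝ) (hc : 0 < c)
    (h1 : ∀ᵐ z ∂ν, ‖z‖ < 1)
    (h2 : ∀ᶠ r in 𝓝[<] (1 : ℝ), ν {z | r ≤ ‖z‖} ≤ ENNReal.ofReal (Real.exp (-c / (1 - r)))) :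
    (∫⁻ z, ENNReal.ofReal (Real.exp (c / 2 / (1 - ‖z‖))) ∂ν) ≠ ⊤ := by
  set A : ℕ → Set ℂ := fun k => {z | 1 - 1 / ((k : ℝ) + 1) ≤ ‖z‖} with hA
  have hAm : ∀ k, MeasurableSet (A k) := fun k =>
    measurableSet_le measurable_const measurable_norm
  set b : ℕ → ℝ := fun k => Real.exp (c / 2 * ((k : ℝ) + 2)) with hb
  have hle : ∀ᵐ z ∂ν, ENNReal.ofReal (Real.exp (c / 2 / (1 - ‖z‖))) ≤
      ∑' k, (A k).indicator (fun _ => ENNReal.ofReal (b k)) z := by
    refine h1.mono fun z hz => ?_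
    have hp : 0 < 1 - ‖z‖ := by linarith
    have hx : 1 ≤ 1 / (1 - ‖z‖) := by
      rw [le_div_iff₀ hp]; linarith [norm_nonneg z]
    obtain ⟨k, hk⟩ : ∃ k, ⌊1 / (1 - ‖z‖)⌋₊ = k + 1 :=
      Nat.exists_eq_succ_of_ne_zero (Nat.floor_pos.2 hx).ne'
    have e1 : ((k : ℝ) + 1) ≤ 1 / (1 - ‖z‖) := by
      have := Nat.floor_le (zero_le_one.trans hx)
      rw [hk] at this; exact_mod_cast this
    have e2 : 1 / (1 - ‖z‖) ≤ (k : ℝ) + 2 := by
      have := (Nat.lt_floor_add_one (1 / (1 - ‖z‖))).le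
      rw [hk] at this; push_cast at this; linarith
    have e3 : z ∈ A k := by
      have : 1 - ‖z‖ ≤ 1 / ((k : ℝ) + 1) := by
        rw [le_div_iff₀ (by positivity)]
        rw [le_div_iff₀ hp] at e1; linarith
      show 1 - 1 / ((k : ℝ) + 1) ≤ ‖z‖
      linarith
    refine le_trans ?_ (ENNReal.le_tsum k)
    rw [Set.indicator_of_mem e3]
    refine ENNReal.ofReal_le_ofReal (Real.exp_le_exp.2 ?_)
    rw [div_eq_mul_one_div (c / 2)]
    exact mul_le_mul_of_nonneg_left e2 (by linarith)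
  refine ne_top_of_le_ne_top ?_ (lintegral_mono_ae hle)
  rw [lintegral_tsum fun k => (measurable_const.indicator (hAm k)).aemeasurable]
  have e : ∀ k, ∫⁻ z, (A k).indicator (fun _ => ENNReal.ofReal (b k)) z ∂ν =
      ENNReal.ofReal (b k * (ν (A k)).toReal) := by
    intro k
    rw [lintegral_indicator_const (hAm k), ENNReal.ofReal_mul (Real.exp_pos _).le,
      ENNReal.ofReal_toReal (measure_ne_top _ _)]
  simp only [e]
  refine Summable.tsum_ofReal_ne_top ?_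
  have ht : Tendsto (fun k : ℕ => 1 - 1 / ((k : ℝ) + 1)) atTop (𝓝[<] (1 : ℝ)) := by
    refine tendsto_nhdsWithin_iff.2 ⟨?_, .of_forall fun k => ?_⟩
    · simpa using (tendsto_one_div_add_atTop_nhds_zero_nat (𝕜 := ℝ)).const_sub 1
    · have : (0 : ℝ) < 1 / ((k : ℝ) + 1) := by positivity
      show 1 - 1 / ((k : ℝ) + 1) < 1
      linarith
  have hg : Summable fun k : ℕ => Real.exp (-(c / 2)) ^ k :=
    summable_geometric_of_lt_one (Real.exp_pos _).le (Real.exp_lt_one_iff.2 (by linarith))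
  refine Summable.of_norm_bounded_eventually_nat hg ((ht.eventually h2).mono fun k hk => ?_)
  have e4 : (ν (A k)).toReal ≤ Real.exp (-c * ((k : ℝ) + 1)) := by
    refine ENNReal.toReal_le_of_le_ofReal (Real.exp_pos _).le (hk.trans_eq ?_)
    congr 2
    have : ((k : ℝ) + 1) ≠ 0 := by positivity
    field_simp
    ring
  rw [Real.norm_of_nonneg (mul_nonneg (Real.exp_pos _).le ENNReal.toReal_nonneg)]
  refine (mul_le_mul_of_nonneg_left e4 (Real.exp_pos _).le).trans_eq ?_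
  rw [← Real.exp_add, ← Real.exp_nat_mul]
  congr 1; ring

theorem tailS : TailStmt := by
  intro ν _ c hc h1 h2 ε hε
  have hlim : Tendsto (fun n : ℕ => ∫⁻ z, ENNReal.ofReal
      ((Real.exp (c / 4 * (1 / ((n : ℝ) + 1)) / (1 - ‖z‖)) - 1) ^ 2) ∂ν) atTop
      (𝓝 (∫⁻ _ : ℂ, (0 : ENNReal) ∂ν)) := by
    refine tendsto_lintegral_of_dominated_convergence
      (fun z => ENNReal.ofReal (Real.exp (c / 2 / (1 - ‖z‖)))) (fun n => by fun_prop)
      (fun n => h1.mono fun z hz => ENNReal.ofReal_le_ofReal ?_) (fin_Tail ν c hc h1 h2)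
      (.of_forall fun z => ?_)
    · have hp : 0 < 1 - ‖z‖ := by linarith
      have e1 : 1 / ((n : ℝ) + 1) ≤ 1 := by
        rw [div_le_one (by positivity)]; linarith [(Nat.cast_nonneg n : (0 : ℝ) ≤ n)]
      have e2 : c / 4 * (1 / ((n : ℝ) + 1)) / (1 - ‖z‖) ≤ c / 4 / (1 - ‖z‖) :=
        div_le_div_of_nonneg_right (by nlinarith) hp.le
      have e3 : 1 ≤ Real.exp (c / 4 * (1 / ((n : ℝ) + 1)) / (1 - ‖z‖)) :=
        Real.one_le_exp (by positivity)
      have e4 : Real.exp (c / 2 / (1 - ‖z‖)) = Real.exp (c / 4 / (1 - ‖z‖)) ^ 2 := by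
        rw [← Real.exp_nat_mul]; congr 1; push_cast; ring
      rw [e4]
      exact pow_le_pow_left₀ (by linarith) (by linarith [Real.exp_le_exp.2 e2]) 2
    · have hcont : Continuous fun t : ℝ =>
          ENNReal.ofReal ((Real.exp (c / 4 * t / (1 - ‖z‖)) - 1) ^ 2) :=
        ENNReal.continuous_ofReal.comp (by fun_prop)
      simpa [Function.comp_def] using (hcont.tendsto 0).comp (tendsto_one_div_add_atTop_nhds_zero_nat (𝕜 := ℝ))
  rw [lintegral_zero] at hlim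
  obtain ⟨n, hn⟩ := (hlim.eventually (gt_mem_nhds (ENNReal.ofReal_pos.2 hε))).exists
  exact ⟨_, by positivity, hn⟩

end Pool.Agent.MP_17fac5_an.H19

end

section

set_option autoImplicit false
open MeasureTheory Filter Topology

namespace Pool.Agent.MP_17fac5_an.H19

lemma arg_App {t : ℝ} (ht : t ∈ Set.Ioc (0 : ℝ) (2 * Real.pi)) :
    Complex.arg (-ex t) + Real.pi = t := by
  have h1 : -ex t = Complex.cos ((t - Real.pi : ℝ) : ℂ) + Complex.sin ((t - Real.pi : ℝ) : ℂ) * Complex.I := by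
    rw [← Complex.exp_mul_I, Complex.ofReal_sub, sub_mul, Complex.exp_sub, Complex.exp_pi_mul_I]
    ring
  rw [h1, Complex.arg_cos_add_sin_mul_I ⟨by linarith [ht.1], by linarith [ht.2]⟩]
  ring

theorem appS (h : SWStmt) : AppStmt := by
  intro m _ φ M δ hm hφ hφM δ0
  have exm : Measurable ex := by fun_prop
  let f : ℂ → ℝ := fun z => φ (Complex.arg (-z) + Real.pi)
  have fm : Measurable f :=
    hφ.comp ((Complex.measurable_arg.comp measurable_neg).add measurable_const)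
  have fi : Integrable f (m.map ex) :=
    Integrable.of_bound fm.aestronglyMeasurable M (Eventually.of_forall fun z => by
      rw [Real.norm_eq_abs, abs_of_nonneg (hφM _).1]; exact (hφM _).2)
  obtain ⟨ψ, hψ, -⟩ := fi.exists_boundedContinuous_lintegral_sub_le
    (ε := ENNReal.ofReal (δ / 2)) (by simpa using δ0)
  have gm : Measurable fun x => ‖f x - ψ x‖ₑ := (fm.sub ψ.continuous.measurable).enorm
  rw [lintegral_map gm exm] at hψ
  obtain ⟨K, K0, hK⟩ : ∃ K : ℝ, 0 ≤ K ∧ m Set.univ = ENNReal.ofReal K :=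
    ⟨_, ENNReal.toReal_nonneg, (ENNReal.ofReal_toReal (measure_ne_top _ _)).symm⟩
  obtain ⟨d, d0, d1, d2⟩ : ∃ d : ℝ, 0 < d ∧ d ≤ 1 ∧ d * K ≤ δ / 2 := by
    refine ⟨min 1 (δ / 2 / (K + 1)), by positivity, min_le_left _ _, ?_⟩
    refine (mul_le_mul_of_nonneg_right (min_le_right _ _) K0).trans ?_
    rw [div_mul_eq_mul_div, div_le_iff₀ (by positivity)]
    nlinarith
  obtain ⟨a, b, hab⟩ := h 1 (fun z => ((min (ψ z) M : ℝ) : ℂ)) one_pos
    (Complex.continuous_ofReal.comp (ψ.continuous.min continuous_const)).continuousOn d d0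
  have key : ∀ θ : ℝ, |((a + b).eval (ex θ)).re - min (ψ (ex θ)) M| ≤ d := fun θ => by
    have h1 := (Complex.abs_re_le_norm _).trans
      (hab (ex θ) (by simp [Complex.norm_exp_ofReal_mul_I]))
    rw [abs_sub_comm]
    simpa using h1
  refine ⟨a + b, fun θ => ?_, ?_⟩
  · have := (abs_le.1 (key θ)).2
    have := min_le_right (ψ (ex θ)) M
    linarith
  · calc _ ≤ ∫⁻ θ, ENNReal.ofReal d + ‖f (ex θ) - ψ (ex θ)‖ₑ ∂m := by
          refine lintegral_mono_ae ?_
          filter_upwards [hm] with θ hθ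
          have e : f (ex θ) = φ θ := by simp only [f, arg_App hθ]
          rw [e, ← ofReal_norm_eq_enorm, ← ENNReal.ofReal_add d0.le (norm_nonneg _),
            Real.norm_eq_abs]
          refine ENNReal.ofReal_le_ofReal ((abs_sub_le _ (min (ψ (ex θ)) M) _).trans
            (add_le_add (key θ) ?_))
          have h1 := abs_min_sub_min_le_max (ψ (ex θ)) M (φ θ) M
          rw [min_eq_left (hφM θ).2, sub_self, abs_zero, max_eq_left (abs_nonneg _)] at h1
          rwa [abs_sub_comm (φ θ)]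
      _ ≤ ENNReal.ofReal (δ / 2) + ENNReal.ofReal (δ / 2) := by
          rw [lintegral_add_left measurable_const, lintegral_const, hK, ← ENNReal.ofReal_mul d0.le]
          exact add_le_add (ENNReal.ofReal_le_ofReal d2) hψ
      _ = _ := by rw [← ENNReal.ofReal_add (by positivity) (by positivity), add_halves]

end Pool.Agent.MP_17fac5_an.H19

end

section

set_option autoImplicit false
open MeasureTheory Filter Topology

namespace Pool.Agent.MP_17fac5_an.H19

def Gd_RealA (w φ : ℝ → ℝ) (M : ℝ) : Prop :=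
  Measurable φ ∧ (∀ θ, 0 ≤ φ θ ∧ φ θ ≤ M) ∧ ∀ θ, Real.exp (2 * φ θ) * w θ ≤ max (w θ) 1

noncomputable def ps_RealA (w : ℝ → ℝ) (n : ℕ) (t : ℝ) : ℝ :=
  if w t = 0 then n else min n (max 0 (-Real.log (w t) / 2))

theorem ii_RealA {w φ : ℝ → ℝ} {M : ℝ} (h : Gd_RealA w φ M) (a b : ℝ) :
    IntervalIntegrable φ volume a b :=
  (intervalIntegrable_const (c := M)).mono_fun' h.1.aestronglyMeasurable
    (Eventually.of_forall fun t => by
      show ‖φ t‖ ≤ M
      rw [Real.norm_of_nonneg (h.2.1 t).1]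
      exact (h.2.1 t).2)

theorem ps_gd_RealA {w : ℝ → ℝ} (hm : Measurable w) (h0 : ∀ θ, 0 ≤ w θ) (n : ℕ) :
    Gd_RealA w (ps_RealA w n) n := by
  refine ⟨Measurable.ite (measurableSet_eq_fun hm measurable_const) measurable_const
    (measurable_const.min (measurable_const.max (hm.log.neg.div_const 2))), fun t => ?_,
    fun t => ?_⟩
  · unfold ps_RealA
    split_ifs
    · exact ⟨Nat.cast_nonneg n, le_rfl⟩
    · exact ⟨le_min (Nat.cast_nonneg n) (le_max_left _ _), min_le_left _ _⟩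
  · unfold ps_RealA
    split_ifs with h
    · rw [h, mul_zero]; exact le_max_left _ _
    · have h1 : 0 < w t := (h0 t).lt_of_ne' h
      refine (mul_le_mul_of_nonneg_right (Real.exp_le_exp.2
        (mul_le_mul_of_nonneg_left (min_le_right _ _) zero_le_two)) h1.le).trans ?_
      rcases le_total 0 (-Real.log (w t) / 2) with h2 | h2
      · rw [max_eq_right h2, show 2 * (-Real.log (w t) / 2) = -Real.log (w t) by ring,
          Real.exp_neg, Real.exp_log h1, inv_mul_cancel₀ h]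
        exact le_max_right _ _
      · rw [max_eq_left h2, mul_zero, Real.exp_zero, one_mul]
        exact le_max_left _ _

theorem big_RealA {w : ℝ → ℝ} (hm : Measurable w) (h0 : ∀ θ, 0 ≤ w θ) (hb : LogBad w) {a b : ℝ}
    (hab : a < b) (A : ℝ) : ∃ n : ℕ, A ≤ ∫ t in a..b, ps_RealA w n t := by
  have m1 : ∀ n, Measurable fun t => ENNReal.ofReal (2 * ps_RealA w n t) := fun n =>
    ((ps_gd_RealA hm h0 n).1.const_mul 2).ennreal_ofReal
  have m2 : Monotone fun (n : ℕ) t => ENNReal.ofReal (2 * ps_RealA w n t) := by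
    intro n k hnk t
    refine ENNReal.ofReal_le_ofReal (mul_le_mul_of_nonneg_left ?_ zero_le_two)
    have : (n : ℝ) ≤ k := by exact_mod_cast hnk
    unfold ps_RealA
    split_ifs
    · exact this
    · exact min_le_min_right _ this
  have h1 : (⊤ : ENNReal) ≤ ∫⁻ t in Set.Ioo a b, ⨆ n : ℕ, ENNReal.ofReal (2 * ps_RealA w n t) := by
    rw [← hb a b hab]
    refine lintegral_mono fun t => ?_
    by_cases h : w t = 0
    · simp only [ps_RealA, if_pos h]
      rw [← ENNReal.iSup_natCast]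
      refine iSup_mono fun n => ?_
      rw [← ENNReal.ofReal_natCast]
      exact ENNReal.ofReal_le_ofReal (by have : (0 : ℝ) ≤ n := Nat.cast_nonneg n; linarith)
    · simp only [ps_RealA, if_neg h]
      obtain ⟨n, hn⟩ := exists_nat_ge (max 0 (-Real.log (w t) / 2))
      refine le_iSup_of_le n (ENNReal.ofReal_le_ofReal ?_)
      rw [min_eq_right hn]
      linarith [le_max_right 0 (-Real.log (w t) / 2)]
  rw [lintegral_iSup m1 m2] at h1
  obtain ⟨n, hn⟩ := lt_iSup_iff.1 ((ENNReal.ofReal_lt_top (r := 2 * A)).trans_le h1)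
  refine ⟨n, ?_⟩
  have g := ps_gd_RealA hm h0 n
  have i1 : IntegrableOn (fun t => 2 * ps_RealA w n t) (Set.Ioo a b) :=
    (((ii_RealA g a b).const_mul 2).1).mono_set Set.Ioo_subset_Ioc_self
  rw [← ofReal_integral_eq_lintegral_ofReal i1
    (Eventually.of_forall fun t => mul_nonneg zero_le_two (g.2.1 t).1), integral_const_mul,
    ← integral_Ioc_eq_integral_Ioo, ← intervalIntegral.integral_of_le hab.le] at hn
  by_contra h
  exact absurd (ENNReal.ofReal_le_ofReal (by linarith)) (not_le.2 hn)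

theorem one_RealA {w : ℝ → ℝ} (hm : Measurable w) (h0 : ∀ θ, 0 ≤ w θ) (hb : LogBad w) {a b : ℝ}
    (hab : a < b) {A : ℝ} (hA : 0 < A) : ∃ φ M, Gd_RealA w φ M ∧ ∫ t in a..b, φ t = A := by
  obtain ⟨n, hn⟩ := big_RealA hm h0 hb hab A
  have g := ps_gd_RealA hm h0 n
  set J := ∫ t in a..b, ps_RealA w n t with hJ
  have J0 : 0 < J := hA.trans_le hn
  have c0 : 0 ≤ A / J := by positivity
  have c1 : A / J ≤ 1 := (div_le_one J0).2 hn
  have c2 : ∀ t, A / J * ps_RealA w n t ≤ ps_RealA w n t := fun t =>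
    mul_le_of_le_one_left (g.2.1 t).1 c1
  refine ⟨fun t => A / J * ps_RealA w n t, n, ⟨g.1.const_mul _,
    fun t => ⟨mul_nonneg c0 (g.2.1 t).1, (c2 t).trans (g.2.1 t).2⟩, fun t => le_trans
      (mul_le_mul_of_nonneg_right (Real.exp_le_exp.2 (by linarith [c2 t])) (h0 t)) (g.2.2 t)⟩, ?_⟩
  rw [intervalIntegral.integral_const_mul, ← hJ, div_mul_cancel₀ _ J0.ne']

theorem step_RealA {w : ℝ → ℝ} (hm : Measurable w) (h0 : ∀ θ, 0 ≤ w θ) (hb : LogBad w)
    {N d : ℝ} (hN : 0 < N) (hd : 0 < d) (k : ℕ) : ∃ φ M, Gd_RealA w φ M ∧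
      ∫ t in (0 : ℝ)..k * d, φ t = N * (k * d) ∧
      ∀ t ∈ Set.Icc (0 : ℝ) (k * d), |(∫ θ in (0 : ℝ)..t, φ θ) - N * t| ≤ N * d := by
  induction k with
  | zero =>
    refine ⟨fun _ => 0, 0, ⟨measurable_const, fun _ => ⟨le_rfl, le_rfl⟩, fun t => by simp⟩,
      by simp, fun t ht => ?_⟩
    have : t = 0 := le_antisymm (by simpa using ht.2) ht.1
    rw [this]
    simpa using (mul_pos hN hd).le
  | succ k ih =>
    obtain ⟨φ, M, g, e, h⟩ := ih
    set a : ℝ := k * d with ha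
    have a0 : 0 ≤ a := by positivity
    rw [show ((k + 1 : ℕ) : ℝ) * d = a + d by rw [ha]; push_cast; ring]
    obtain ⟨ψ, M', g', e'⟩ := one_RealA hm h0 hb (lt_add_of_pos_right a hd) (mul_pos hN hd)
    obtain ⟨χ, g2, l1, l2⟩ : ∃ χ, Gd_RealA w χ (max M M') ∧ (∀ t, t ≤ a → χ t = φ t) ∧
        ∀ t, a < t → χ t = ψ t := by
      refine ⟨fun t => if t ≤ a then φ t else ψ t,
        ⟨Measurable.ite measurableSet_Iic g.1 g'.1, fun t => ?_, fun t => ?_⟩,
        fun t ht => if_pos ht, fun t ht => if_neg (not_le.2 ht)⟩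
      · dsimp only
        split_ifs
        · exact ⟨(g.2.1 t).1, (g.2.1 t).2.trans (le_max_left _ _)⟩
        · exact ⟨(g'.2.1 t).1, (g'.2.1 t).2.trans (le_max_right _ _)⟩
      · dsimp only
        split_ifs
        · exact g.2.2 t
        · exact g'.2.2 t
    have i1 : ∀ t, 0 ≤ t → t ≤ a → ∫ θ in (0 : ℝ)..t, χ θ = ∫ θ in (0 : ℝ)..t, φ θ :=
      fun t h1 h2 => intervalIntegral.integral_congr fun θ hθ => by
        rw [Set.uIcc_of_le h1] at hθ
        exact l1 θ (hθ.2.trans h2)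
    have i2 : ∀ t, a ≤ t → ∫ θ in (0 : ℝ)..t, χ θ = N * a + ∫ θ in a..t, ψ θ := fun t h1 => by
      rw [← intervalIntegral.integral_add_adjacent_intervals (ii_RealA g2 0 a) (ii_RealA g2 a t),
        i1 a a0 le_rfl, e]
      congr 1
      refine intervalIntegral.integral_congr_ae (Eventually.of_forall fun θ hθ => ?_)
      rw [Set.uIoc_of_le h1] at hθ
      exact l2 θ hθ.1
    refine ⟨χ, _, g2, ?_, fun t ht => ?_⟩
    · rw [i2 _ (by linarith), e']
      ring
    · rcases le_total t a with h1 | h1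
      · rw [i1 t ht.1 h1]
        exact h t ⟨ht.1, h1⟩
      · have b1 : 0 ≤ ∫ θ in a..t, ψ θ :=
          intervalIntegral.integral_nonneg h1 fun θ _ => (g'.2.1 θ).1
        have b2 : 0 ≤ ∫ θ in t..a + d, ψ θ :=
          intervalIntegral.integral_nonneg ht.2 fun θ _ => (g'.2.1 θ).1
        have b3 := intervalIntegral.integral_add_adjacent_intervals (ii_RealA g' a t)
          (ii_RealA g' t (a + d))
        have b4 := mul_le_mul_of_nonneg_left h1 hN.le
        have b5 := mul_le_mul_of_nonneg_left ht.2 hN.le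
        rw [i2 t h1, abs_le]
        constructor <;> linarith

theorem realS : RealStmt := by
  intro w hm h0 hb N η hN hη
  have hd : 0 < η / N := div_pos hη hN
  obtain ⟨k, hk⟩ := exists_nat_ge (2 * Real.pi / (η / N))
  obtain ⟨φ, M, g, -, h⟩ := step_RealA hm h0 hb hN hd k
  refine ⟨φ, M, g.1, g.2.1, g.2.2, fun t ht => ?_⟩
  rw [mul_div_cancel₀ _ hN.ne'] at h
  exact h t ⟨ht.1, ht.2.trans ((div_le_iff₀ hd).1 hk)⟩

end Pool.Agent.MP_17fac5_an.H19

end

section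

set_option autoImplicit false
open MeasureTheory Filter Topology

namespace Pool.Agent.MP_17fac5_an.H19

open Complex Metric

theorem prim_Der (P : Polynomial ℂ) : ∃ Q : Polynomial ℂ, Q.derivative = P := by
  induction P using Polynomial.induction_on' with
  | add p q hp hq =>
    obtain ⟨a, rfl⟩ := hp
    obtain ⟨b, rfl⟩ := hq
    exact ⟨a + b, Polynomial.derivative_add⟩
  | monomial n a =>
    refine ⟨Polynomial.monomial (n + 1) (a / (n + 1)), ?_⟩
    have h : ((n : ℂ) + 1) ≠ 0 := Nat.cast_add_one_ne_zero n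
    rw [Polynomial.derivative_monomial_succ, div_mul_cancel₀ _ h]

theorem ftc_Der (F Q : Polynomial ℂ) (h : ∀ z, F.eval z - F.eval 0 = z * Q.derivative.eval z)
    (t : ℝ) : ∫ θ in (0 : ℝ)..t, (F.eval (ex θ)).re =
      (Q.eval (ex t)).im - (Q.eval 1).im + (F.eval 0).re * t := by
  have h1 : ∀ θ : ℝ, HasDerivAt (fun θ : ℝ => (Q.eval (ex θ)).im + (F.eval 0).re * θ)
      (F.eval (ex θ)).re θ := fun θ => by
    have a1 : HasDerivAt (fun θ : ℝ => ex θ) (ex θ * I) θ := by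
      simpa using ((hasDerivAt_id θ).ofReal_comp.mul_const I).cexp
    have a2 := (imCLM.hasFDerivAt.comp_hasDerivAt θ ((Q.hasDerivAt (ex θ)).comp θ a1)).add
      ((hasDerivAt_id θ).const_mul (F.eval 0).re)
    refine HasDerivAt.congr_deriv a2 ?_
    have a3 := congrArg Complex.re (h (ex θ))
    rw [imCLM_apply, ← mul_assoc, mul_I_im, mul_comm, ← a3, sub_re]
    ring
  have h2 : Continuous fun θ : ℝ => (F.eval (ex θ)).re :=
    continuous_re.comp (F.continuous.comp (by fun_prop))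
  rw [intervalIntegral.integral_eq_sub_of_hasDerivAt (fun θ _ => h1 θ) (h2.intervalIntegrable _ _)]
  simp only [ex, ofReal_zero, zero_mul, exp_zero, mul_zero, add_zero]
  ring

theorem circ_Der {z : ℂ} (hz : ‖z‖ = 1) : ∃ t ∈ Set.Icc (0 : ℝ) (2 * Real.pi), ex t = z := by
  refine ⟨arg (-z) + Real.pi, ⟨by linarith [neg_pi_lt_arg (-z)], by linarith [arg_le_pi (-z)]⟩, ?_⟩
  have h := norm_mul_exp_arg_mul_I (-z)
  rw [norm_neg, hz, ofReal_one, one_mul] at h
  rw [ex, ofReal_add, add_mul, exp_add, h, exp_pi_mul_I]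
  ring

theorem max_Der (Q : Polynomial ℂ) (c : ℂ) (b : ℝ) (h : ∀ z : ℂ, ‖z‖ = 1 → (c * Q.eval z).re ≤ b)
    {z : ℂ} (hz : ‖z‖ < 1) : (c * Q.eval z).re ≤ b := by
  have h1 : Differentiable ℂ fun z => exp (c * Q.eval z) := (Q.differentiable.const_mul c).cexp
  have h2 := norm_le_of_forall_mem_frontier_norm_le (isBounded_ball (x := (0 : ℂ)) (r := 1))
    h1.diffContOnCl (C := Real.exp b) (fun w hw => by
      rw [frontier_ball _ one_ne_zero, mem_sphere_zero_iff_norm] at hw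
      rw [norm_exp]
      exact Real.exp_le_exp.2 (h w hw)) (subset_closure (mem_ball_zero_iff.2 hz))
  rw [norm_exp] at h2
  exact Real.exp_le_exp.1 h2

theorem derS : DerStmt := by
  intro F N η hη h
  obtain ⟨Q, hQ⟩ := prim_Der F.divX
  have hF : ∀ z, F.eval z - F.eval 0 = z * Q.derivative.eval z := fun z => by
    have := congrArg (Polynomial.eval z) F.X_mul_divX_add
    rw [Polynomial.eval_add, Polynomial.eval_mul, Polynomial.eval_X, Polynomial.eval_C,
      Polynomial.coeff_zero_eq_eval_zero] at this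
    rw [hQ, ← this]
    ring
  simp only [ftc_Der F Q hF] at h
  have hπ := Real.pi_gt_three
  have a1 := h (2 * Real.pi) ⟨by linarith, le_rfl⟩
  have e1 : ex (2 * Real.pi) = 1 := by
    rw [ex]
    push_cast
    exact exp_two_pi_mul_I
  rw [e1, sub_self, zero_add, ← sub_mul, abs_mul, abs_of_pos (by linarith : 0 < 2 * Real.pi)] at a1
  have c0 := abs_nonneg ((F.eval 0).re - N)
  refine ⟨by nlinarith, fun z hz => ?_⟩
  have a2 : ∀ w : ℂ, ‖w‖ = 1 → |(Q.eval w).im - (Q.eval 1).im| ≤ 2 * η := fun w hw => by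
    obtain ⟨t, ht, rfl⟩ := circ_Der hw
    have b1 := abs_le.1 (h t ht)
    have b2 : |((F.eval 0).re - N) * t| ≤ η := by
      rw [abs_mul, abs_of_nonneg ht.1]
      exact (mul_le_mul_of_nonneg_left ht.2 c0).trans a1
    have b3 := abs_le.1 b2
    rw [abs_le]
    constructor <;> linarith [b1.1, b1.2, b3.1, b3.2]
  have a3 : ∀ w : ℂ, ‖w‖ < 1 → (Q.eval w).im ≤ (Q.eval 1).im + 2 * η := fun w hw => by
    have := max_Der Q (-I) ((Q.eval 1).im + 2 * η) (fun u hu => by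
      have := (abs_le.1 (a2 u hu)).2
      simp only [neg_mul, neg_re, I_mul_re, neg_neg]
      linarith) hw
    simpa using this
  have a4 : ∀ w : ℂ, ‖w‖ < 1 → -(Q.eval w).im ≤ -(Q.eval 1).im + 2 * η := fun w hw => by
    have := max_Der Q I (-(Q.eval 1).im + 2 * η) (fun u hu => by
      have := (abs_le.1 (a2 u hu)).1
      simp only [I_mul_re]
      linarith) hw
    simpa using this
  have x0 : 0 < 1 - ‖z‖ := by linarith
  set x : ℝ := 1 - ‖z‖ with hx
  set f : ℂ → ℂ := fun s => -I * (Q.eval (z + s) - Q.eval z) with hf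
  have d1 : ∀ s, HasDerivAt f (-I * Q.derivative.eval (z + s)) s := fun s => by
    have := (((Q.hasDerivAt (z + s)).comp s ((hasDerivAt_id s).const_add z)).sub_const
      (Q.eval z)).const_mul (-I)
    rw [mul_one] at this
    exact this
  have d2 : Differentiable ℂ f := fun s => (d1 s).differentiableAt
  have m1 : Set.MapsTo f (ball 0 x) {w | w.re ≤ 4 * η} := fun s hs => by
    have b1 : ‖z + s‖ < 1 := by
      have := mem_ball_zero_iff.1 hs
      linarith [norm_add_le z s]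
    have b2 := a3 _ b1
    have b3 := a4 _ hz
    show (-I * (Q.eval (z + s) - Q.eval z)).re ≤ 4 * η
    simp only [neg_mul, neg_re, I_mul_re, neg_neg, sub_im]
    linarith
  have a5 := norm_deriv_le_of_forall_mem_sphere_norm_le (c := 0) (R := x / 2) (C := 8 * η)
    (by positivity) d2.diffContOnCl fun s hs => by
      rw [mem_sphere_zero_iff_norm] at hs
      refine (borelCaratheodory_zero (by positivity) d2.differentiableOn m1 x0
        (mem_ball_zero_iff.2 (by linarith)) (by simp [hf])).trans_eq ?_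
      rw [hs]
      field_simp
      ring
  rw [(d1 0).deriv, add_zero, norm_mul, norm_neg, norm_I, one_mul] at a5
  rw [hF, norm_mul]
  refine (mul_le_of_le_one_left (norm_nonneg _) hz.le).trans (a5.trans ?_)
  rw [div_le_div_iff₀ (by positivity) x0]
  nlinarith [mul_pos hη x0]

end Pool.Agent.MP_17fac5_an.H19

end

section

set_option autoImplicit false
open MeasureTheory Filter Topology

namespace Pool.Agent.MP_17fac5_an.H19

/-- The known direction: an exponentially small tail gives splitting. -/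
theorem direct (G : ℝ → ℝ) (hG : Measurable G)
    (hfin : (∫⁻ z in Metric.ball (0 : ℂ) 1, ENNReal.ofReal (G ‖z‖)) < ⊤) (c : ℝ) (hc : 0 < c)
    (hT : ∀ᶠ r in 𝓝[<] (1 : ℝ),
      (∫⁻ z in Metric.ball (0 : ℂ) 1 \ Metric.ball (0 : ℂ) r, ENNReal.ofReal (G ‖z‖)) ≤
        ENNReal.ofReal (Real.exp (-c / (1 - r))))
    (W : ℂ → ℝ) (hW : Measurable W) (hW0 : ∀ z, 0 ≤ W z)
    (hWi : (∫⁻ θ in Set.Ioc (0 : ℝ) (2 * Real.pi), ENNReal.ofReal (W (ex θ))) < ⊤)
    (hL : LogBad fun θ => W (ex θ)) (g : ℂ → ℂ) (hg : Measurable g)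
    (hg2 : (∫⁻ θ in Set.Ioc (0 : ℝ) (2 * Real.pi),
      ENNReal.ofReal (W (ex θ)) * ‖g (ex θ)‖ₑ ^ (2 : ℕ)) < ⊤) (ε : ℝ) (hε : 0 < ε) :
    ∃ p : Polynomial ℂ,
      (∫⁻ z in Metric.ball (0 : ℂ) 1, ENNReal.ofReal (G ‖z‖) * ‖p.eval z‖ₑ ^ (2 : ℕ)) <
        ENNReal.ofReal ε ∧
      (∫⁻ θ in Set.Ioc (0 : ℝ) (2 * Real.pi), ENNReal.ofReal (W (ex θ)) *
        ‖p.eval (ex θ) - g (ex θ)‖ₑ ^ (2 : ℕ)) < ENNReal.ofReal ε := by
  have hm : Measurable fun z : ℂ => ENNReal.ofReal (G ‖z‖) :=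
    (hG.comp measurable_norm).ennreal_ofReal
  have hex : Measurable ex := cont_ex.measurable
  have hw : Measurable fun θ : ℝ => ENNReal.ofReal (W (ex θ)) := (hW.comp hex).ennreal_ofReal
  set ν : Measure ℂ := (volume.restrict (Metric.ball (0 : ℂ) 1)).withDensity
    fun z => ENNReal.ofReal (G ‖z‖) with hν
  set μ : Measure ℂ := (((volume.restrict (Set.Ioc (0 : ℝ) (2 * Real.pi))).withDensity
    fun θ => ENNReal.ofReal (W (ex θ)))).map ex with hμ
  have eν : ∀ f : ℂ → ENNReal, Measurable f → ∫⁻ z, f z ∂ν =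
      ∫⁻ z in Metric.ball (0 : ℂ) 1, ENNReal.ofReal (G ‖z‖) * f z := fun f hf => by
    rw [hν, lintegral_withDensity_eq_lintegral_mul _ hm hf]; rfl
  have eμ : ∀ f : ℂ → ENNReal, Measurable f → ∫⁻ z, f z ∂μ =
      ∫⁻ θ in Set.Ioc (0 : ℝ) (2 * Real.pi), ENNReal.ofReal (W (ex θ)) * f (ex θ) :=
    fun f hf => by
      rw [hμ, lintegral_map hf hex,
        lintegral_withDensity_eq_lintegral_mul _ hw (g := fun θ => f (ex θ)) (hf.comp hex)]
      rfl
  haveI : IsFiniteMeasure ν := isFiniteMeasure_withDensity hfin.ne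
  haveI : IsFiniteMeasure ((volume.restrict (Set.Ioc (0 : ℝ) (2 * Real.pi))).withDensity
    fun θ => ENNReal.ofReal (W (ex θ))) := isFiniteMeasure_withDensity hWi.ne
  haveI : IsFiniteMeasure μ := Measure.isFiniteMeasure_map _ _
  have aν : ∀ᵐ z ∂ν, ‖z‖ < 1 := by
    refine (withDensity_absolutelyContinuous _ _).ae_le ?_
    filter_upwards [ae_restrict_mem measurableSet_ball] with z hz
    simpa using hz
  have aμ : ∀ᵐ z ∂μ, ‖z‖ = 1 :=
    (ae_map_iff hex.aemeasurable (measurableSet_eq_fun measurable_norm measurable_const)).2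
      (ae_of_all _ norm_ex)
  have hM : Moment ν := by
    refine tailS ν c hc aν (hT.mono fun r hr => le_trans (le_of_eq ?_) hr)
    have hs : MeasurableSet {z : ℂ | r ≤ ‖z‖} := measurableSet_le measurable_const measurable_norm
    rw [hν, withDensity_apply _ hs, Measure.restrict_restrict hs]
    congr 2
    ext z
    simp [and_comm]
  have hp : ∀ p : Polynomial ℂ, Measurable fun z : ℂ => p.eval z := fun p =>
    p.continuous.measurable
  obtain ⟨p, hp1, hp2⟩ := finS swS μ ν aμ aν (fun δ hδ => by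
    obtain ⟨h, e0, e1, e2⟩ := oneS realS (appS swS) derS ν (fun θ => W (ex θ)) aν hM (hW.comp hex)
      (fun θ => hW0 _) hWi hL δ hδ
    exact ⟨h, e0, by rwa [eμ _ ((hp h).enorm.pow_const 2)], e2⟩) g hg
    (by rwa [eμ _ (hg.enorm.pow_const 2)]) ε hε
  rw [eν _ ((hp p).enorm.pow_const 2)] at hp1
  rw [eμ (fun z => ‖p.eval z - g z‖ₑ ^ (2 : ℕ)) (((hp p).sub hg).enorm.pow_const 2)] at hp2
  exact ⟨p, hp1, hp2⟩

end Pool.Agent.MP_17fac5_an.H19

end
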